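import Pool.Agent.Y36.SG.Square

/-!
# Groups of exponential growth, and stretched exponential lower bounds for spheres
-/

set_option autoImplicit false

namespace Pool.Agent.Y36.SG

section
variable {Γ : Type} [Group Γ] {S : Set Γ}

theorem wball_succ_le (hf : S.Finite) (hS : Subgroup.closure S = ⊤) (n : ℕ) :
    wball S (n + 1) ≤ wball S 1 * wball S n := by
  classical
  have key : ∀ g : Γ, wlen S g ≤ n + 1 → ∃ x y : Γ, wlen S x ≤ 1 ∧ wlen S y ≤ n ∧ x * y = g := by
    intro g hg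
    obtain ⟨l, h1, h2, h3⟩ := exists_geod hS g
    cases l with
    | nil =>
      refine ⟨1, 1, by rw [wlen_one]; omega, by rw [wlen_one]; omega, ?_⟩
      rw [mul_one, ← h3]; rfl
    | cons s l =>
      refine ⟨s, l.prod, ?_, ?_, by rw [← h3, List.prod_cons]⟩
      · have := wlen_le (S := S) [s] (by
          intro x hx
          rw [List.mem_singleton] at hx
          rw [hx]; exact h2 s (by simp))
        simpa using this
      · have := wlen_le (S := S) l fun x hx => h2 x (by simp [hx])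
        rw [List.length_cons] at h1
        omega
  choose! x y h1 h2 h3 using key
  have : Finite {g : Γ // wlen S g ≤ 1} := ball_finite hf hS _
  have : Finite {g : Γ // wlen S g ≤ n} := ball_finite hf hS _
  have h4 := Nat.card_le_card_of_injective
    (fun g : {g : Γ // wlen S g ≤ n + 1} =>
      ((⟨x g.1, h1 g.1 g.2⟩, ⟨y g.1, h2 g.1 g.2⟩) :
        {g : Γ // wlen S g ≤ 1} × {g : Γ // wlen S g ≤ n})) (by
      rintro ⟨g, hg⟩ ⟨g', hg'⟩ he
      simp only [Prod.mk.injEq, Subtype.mk.injEq] at he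
      apply Subtype.ext
      show g = g'
      rw [← h3 g hg, ← h3 g' hg', he.1, he.2])
  rwa [Nat.card_prod] at h4

theorem wball_le_pow (hf : S.Finite) (hS : Subgroup.closure S = ⊤) (n : ℕ) :
    wball S n ≤ wball S 1 ^ n := by
  induction n with
  | zero => rw [wball_zero hS, pow_zero]
  | succ n ih =>
    refine (wball_succ_le hf hS n).trans ?_
    rw [pow_succ, mul_comm]
    exact Nat.mul_le_mul_right _ ih

/-- Groups of exponential growth. -/
theorem dom_of_exp (hf : S.Finite) (hS : Subgroup.closure S = ⊤) (c : ℝ) (hc : 1 < c)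
    (h : ∀ n : ℕ, c ^ n ≤ (wball S n : ℝ)) : Dom (fun n => n * wball S n) (wball S) := by
  obtain ⟨C, hC⟩ := pow_unbounded_of_one_lt ((2 * wball S 1 : ℕ) : ℝ) hc
  refine ⟨C + 1, by omega, fun n hn => ?_⟩
  have h1 : n * wball S n ≤ (2 * wball S 1) ^ n := by
    rw [mul_pow]
    exact Nat.mul_le_mul Nat.lt_two_pow_self.le (wball_le_pow hf hS n)
  have h2 : (((2 * wball S 1) ^ n : ℕ) : ℝ) ≤ (wball S ((C + 1) * n) : ℝ) := by
    calc (((2 * wball S 1) ^ n : ℕ) : ℝ) = ((2 * wball S 1 : ℕ) : ℝ) ^ n := by push_cast; rfl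
      _ ≤ (c ^ C) ^ n := pow_le_pow_left₀ (by positivity) hC.le n
      _ = c ^ (C * n) := by rw [pow_mul]
      _ ≤ c ^ ((C + 1) * n) := pow_le_pow_right₀ hc.le (Nat.mul_le_mul_right _ (by omega))
      _ ≤ _ := h _
  exact h1.trans (by exact_mod_cast h2)

/-- The factor `2 n + 1` is absorbed by stretched exponentials. -/
theorem absorb (α : ℝ) (hα : 0 < α) (C : ℕ) (hC : 1 ≤ C) :
    ∃ c : ℕ, 1 ≤ c ∧ ∀ n : ℕ, 1 ≤ n →
      ((2 * (C * (c * n)) + 1 : ℕ) : ℝ) * Real.exp ((n : ℝ) ^ α) ≤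
        Real.exp (((c * n : ℕ) : ℝ) ^ α) := by
  obtain ⟨k, hk⟩ := exists_nat_ge (2 / α)
  have hk1 : 2 ≤ α * k := by
    rw [div_le_iff₀ hα] at hk
    linarith
  have hk0 : 0 < k := by
    rcases Nat.eq_zero_or_pos k with h | h
    · rw [h, Nat.cast_zero, mul_zero] at hk1
      norm_num at hk1
    · exact h
  set c : ℕ := 3 * C * 2 ^ k * k.factorial with hc
  have hfac : 1 ≤ k.factorial := Nat.succ_le_of_lt (Nat.factorial_pos k)
  have h2k : 1 ≤ 2 ^ k := Nat.one_le_two_pow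
  have hcbig : 2 ^ k ≤ c := by
    rw [hc]
    calc 2 ^ k = 1 * 2 ^ k * 1 := by ring
      _ ≤ 3 * C * 2 ^ k * k.factorial := by gcongr; omega
  have hc1 : 1 ≤ c := h2k.trans hcbig
  have hcα : (2 : ℝ) ≤ (c : ℝ) ^ α := by
    have h1 : ((2 : ℝ) ^ (k : ℝ)) ^ α ≤ (c : ℝ) ^ α := by
      apply Real.rpow_le_rpow (by positivity) _ hα.le
      rw [Real.rpow_natCast]
      exact_mod_cast hcbig
    refine le_trans ?_ h1
    rw [← Real.rpow_mul (by norm_num)]
    calc (2 : ℝ) = (2 : ℝ) ^ (1 : ℝ) := (Real.rpow_one 2).symm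
      _ ≤ (2 : ℝ) ^ ((k : ℝ) * α) := by
        apply Real.rpow_le_rpow_of_exponent_le (by norm_num)
        nlinarith
  refine ⟨c, hc1, fun n hn => ?_⟩
  have hn1 : (1 : ℝ) ≤ n := by exact_mod_cast hn
  have hc1' : (1 : ℝ) ≤ c := by exact_mod_cast hc1
  set y : ℝ := ((c * n : ℕ) : ℝ) ^ α with hy
  have hx1 : (1 : ℝ) ≤ ((c * n : ℕ) : ℝ) := by
    push_cast; nlinarith
  have hy0 : 0 < y := by positivity
  have h1 : (n : ℝ) ^ α ≤ y / 2 := by
    have h2 : y = (c : ℝ) ^ α * (n : ℝ) ^ α := by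
      rw [hy, Nat.cast_mul, Real.mul_rpow (by positivity) (by positivity)]
    have h3 : 0 ≤ (n : ℝ) ^ α := by positivity
    rw [h2]
    nlinarith
  have h2 : ((2 * (C * (c * n)) + 1 : ℕ) : ℝ) ≤ Real.exp (y / 2) := by
    have h3 := Real.pow_div_factorial_le_exp (y / 2) (by positivity) k
    refine le_trans ?_ h3
    have h4 : (((c * n : ℕ) : ℝ)) ^ 2 ≤ y ^ k := by
      rw [hy, ← Real.rpow_natCast, ← Real.rpow_natCast, ← Real.rpow_mul (by positivity)]
      apply Real.rpow_le_rpow_of_exponent_le hx1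
      push_cast
      exact hk1
    rw [div_pow, le_div_iff₀ (by positivity), le_div_iff₀ (by positivity)]
    refine le_trans ?_ h4
    have h5 : ((2 * (C * (c * n)) + 1) * k.factorial * 2 ^ k : ℕ) ≤ (c * n) ^ 2 := by
      have h6 : 2 * (C * (c * n)) + 1 ≤ 3 * C * (c * n) := by
        have : 1 ≤ C * (c * n) := Nat.succ_le_of_lt (by positivity)
        nlinarith
      calc (2 * (C * (c * n)) + 1) * k.factorial * 2 ^ k
          ≤ (3 * C * (c * n)) * k.factorial * 2 ^ k := by gcongr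
        _ = c * (c * n) := by rw [hc]; ring
        _ ≤ (c * n) * (c * n) := Nat.mul_le_mul_right _ (Nat.le_mul_of_pos_right _ (by omega))
        _ = (c * n) ^ 2 := by ring
    exact_mod_cast h5
  calc ((2 * (C * (c * n)) + 1 : ℕ) : ℝ) * Real.exp ((n : ℝ) ^ α)
      ≤ Real.exp (y / 2) * Real.exp (y / 2) :=
        mul_le_mul h2 (Real.exp_le_exp.2 h1) (Real.exp_pos _).le (Real.exp_pos _).le
    _ = Real.exp y := by rw [← Real.exp_add]; ring_nf

/-- **Stretched exponential lower bounds pass from balls to all large spheres.** -/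
theorem sphere_lower [Infinite Γ] (hf : S.Finite) (hS : Subgroup.closure S = ⊤) (α : ℝ)
    (hα : 0 < α) (h : ∃ C : ℕ, 1 ≤ C ∧ ∀ n : ℕ,
      Real.exp ((n : ℝ) ^ α) ≤ (wball S (C * n) : ℝ)) :
    ∃ C : ℕ, 1 ≤ C ∧ ∀ n N : ℕ, C * n ≤ N → Real.exp ((n : ℝ) ^ α) ≤ (wsph S N : ℝ) := by
  obtain ⟨C, hC, h⟩ := h
  obtain ⟨c, hc, h1⟩ := absorb α hα C hC
  refine ⟨C * c, Nat.succ_le_of_lt (by positivity), fun n N hN => ?_⟩
  rcases Nat.eq_zero_or_pos n with hn | hn
  · subst hn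
    rw [Nat.cast_zero, Real.zero_rpow hα.ne', Real.exp_zero]
    exact_mod_cast wsph_pos hf hS N
  have h2 := h1 n hn
  have h3 := h (c * n)
  have h4 : ((wball S (C * (c * n)) : ℕ) : ℝ) ≤
      ((2 * (C * (c * n)) + 1 : ℕ) : ℝ) * (wsph S N : ℝ) := by
    have := ball_le_sphere hf hS (n := C * (c * n)) (N := N) (by rwa [← mul_assoc])
    exact_mod_cast this
  have h5 := (h2.trans h3).trans h4
  exact le_of_mul_le_mul_left h5 (by positivity)

end

end Pool.Agent.Y36.SG
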