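import Pool.Agent.Y36.SG.Basic

/-!
# Change of generating sets, subgroups, and groups containing the square of a finite-index subgroup
-/

set_option autoImplicit false

namespace Pool.Agent.Y36.SG

section
variable {Γ : Type} [Group Γ] {S T : Set Γ}

/-- Homomorphisms are Lipschitz. -/
theorem exists_lip_hom {Δ : Type} [Group Δ] {U : Set Δ} (φ : Δ →* Γ) (hf : U.Finite)
    (hU : Subgroup.closure U = ⊤) (hS : Subgroup.closure S = ⊤) :
    ∃ K : ℕ, 1 ≤ K ∧ ∀ g, wlen S (φ g) ≤ K * wlen U g := by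
  obtain ⟨K, hK⟩ := (hf.image fun x => wlen S (φ x)).bddAbove
  refine ⟨K + 1, by omega, fun g => ?_⟩
  obtain ⟨l, h1, h2, h3⟩ := exists_geod hU g
  have h4 := wlen_prod_le hS (K + 1) (l.map φ) (by
    intro x hx
    obtain ⟨y, hy, rfl⟩ := List.mem_map.1 hx
    rcases h2 y hy with h | h
    · exact (hK (Set.mem_image_of_mem _ h)).trans (Nat.le_succ K)
    · have := hK (Set.mem_image_of_mem (fun x => wlen S (φ x)) h)
      simp only [map_inv, wlen_inv hS] at this
      omega)
  rwa [← map_list_prod, h3, List.length_map, h1] at h4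

/-- Two finite generating sets give equivalent word lengths. -/
theorem exists_lip (hf : T.Finite) (hT : Subgroup.closure T = ⊤) (hS : Subgroup.closure S = ⊤) :
    ∃ K : ℕ, 1 ≤ K ∧ ∀ g, wlen S g ≤ K * wlen T g :=
  exists_lip_hom (MonoidHom.id Γ) hf hT hS

/-- The growth function of a finitely generated group dominates that of its finitely generated
subgroups. -/
theorem exists_wball_hom {Δ : Type} [Group Δ] {U : Set Δ} (φ : Δ →* Γ)
    (hφ : Function.Injective φ) (hf : U.Finite) (hU : Subgroup.closure U = ⊤) (hfS : S.Finite)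
    (hS : Subgroup.closure S = ⊤) :
    ∃ K : ℕ, 1 ≤ K ∧ ∀ n, wball U n ≤ wball S (K * n) := by
  obtain ⟨K, hK, h⟩ := exists_lip_hom φ hf hU hS
  refine ⟨K, hK, fun n => ?_⟩
  have : Finite {g : Γ // wlen S g ≤ K * n} := ball_finite hfS hS _
  exact Nat.card_le_card_of_injective
    (fun g : {g : Δ // wlen U g ≤ n} => (⟨φ g.1, (h g.1).trans (Nat.mul_le_mul_left K g.2)⟩ :
      {g : Γ // wlen S g ≤ K * n}))
    fun x y hxy => Subtype.ext (hφ (congrArg Subtype.val hxy))

theorem exists_wball (hf : T.Finite) (hT : Subgroup.closure T = ⊤) (hfS : S.Finite)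
    (hS : Subgroup.closure S = ⊤) : ∃ K : ℕ, 1 ≤ K ∧ ∀ n, wball T n ≤ wball S (K * n) :=
  exists_wball_hom (MonoidHom.id Γ) Function.injective_id hf hT hfS hS

/-- The condition `n γ(n) ≼ γ(n)` does not depend on the finite generating set. -/
theorem dom_change (hf : T.Finite) (hT : Subgroup.closure T = ⊤) (hfS : S.Finite)
    (hS : Subgroup.closure S = ⊤) (h : Dom (fun n => n * wball T n) (wball T)) :
    Dom (fun n => n * wball S n) (wball S) := by
  obtain ⟨C, hC, h⟩ := h
  obtain ⟨K, hK, h1⟩ := exists_wball hfS hS hf hT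
  obtain ⟨L, hL, h2⟩ := exists_wball hf hT hfS hS
  refine ⟨L * (C * K), Nat.succ_le_of_lt (by positivity), fun n hn => ?_⟩
  have h3 := h (K * n) (Nat.succ_le_of_lt (by positivity))
  simp only at h3
  calc n * wball S n ≤ (K * n) * wball T (K * n) :=
        Nat.mul_le_mul (Nat.le_mul_of_pos_left _ (by omega)) (h1 n)
    _ ≤ wball T (C * (K * n)) := h3
    _ ≤ wball S (L * (C * (K * n))) := h2 _
    _ = wball S (L * (C * K) * n) := by ring_nf

/-- If `n γ(n) ≼ γ(n)` for one finite generating set then, for any two finite generating sets `S`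
and `S'`, the spheres with respect to `S'` of radius at least `C n` have at least as many elements
as the ball of radius `n` with respect to `S`. -/
theorem all_spheres [Infinite Γ] {S' : Set Γ} (hf : T.Finite) (hT : Subgroup.closure T = ⊤)
    (h : Dom (fun n => n * wball T n) (wball T)) (hfS : S.Finite) (hS : Subgroup.closure S = ⊤)
    (hfS' : S'.Finite) (hS' : Subgroup.closure S' = ⊤) :
    ∃ C : ℕ, 1 ≤ C ∧ ∀ n : ℕ, 1 ≤ n → ∀ N : ℕ, C * n ≤ N → wball S n ≤ wsph S' N := by
  obtain ⟨C, hC, h1⟩ := ball_le_all_spheres hfS' hS' (dom_change hf hT hfS' hS' h)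
  obtain ⟨K, hK, h2⟩ := exists_wball hfS hS hfS' hS'
  refine ⟨C * K, Nat.succ_le_of_lt (by positivity), fun n hn N hN => (h2 n).trans ?_⟩
  exact h1 (K * n) (Nat.succ_le_of_lt (by positivity)) N (by rwa [← mul_assoc])

theorem wsph_pos [Infinite Γ] (hf : S.Finite) (hS : Subgroup.closure S = ⊤) (N : ℕ) :
    1 ≤ wsph S N := by
  have h := ball_le_sphere hf hS (Nat.zero_le N)
  have h1 := wball_pos hf hS 0
  omega

theorem lt_wball [Infinite Γ] (hf : S.Finite) (hS : Subgroup.closure S = ⊤) (n : ℕ) :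
    n < wball S n := by
  have h : ∀ k, ∃ g : Γ, wlen S g = k := by
    intro k
    have h1 := wsph_pos hf hS k
    by_contra hc
    push Not at hc
    have : IsEmpty {g : Γ // wlen S g = k} := ⟨fun g => hc g.1 g.2⟩
    have h2 : wsph S k = 0 := Nat.card_of_isEmpty
    omega
  choose x hx using h
  have : Finite {g : Γ // wlen S g ≤ n} := ball_finite hf hS _
  have h2 := Nat.card_le_card_of_injective
    (fun k : Fin (n + 1) => (⟨x k, by rw [hx]; omega⟩ : {g : Γ // wlen S g ≤ n})) (by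
      intro i j hij
      have h3 : x i = x j := congrArg Subtype.val hij
      exact Fin.ext (by rw [← hx i, ← hx j, h3]))
  rw [Nat.card_fin] at h2
  exact h2

theorem wball_zero (hS : Subgroup.closure S = ⊤) : wball S 0 = 1 := by
  rw [wball, Nat.card_eq_one_iff_exists]
  refine ⟨⟨1, by rw [wlen_one]⟩, fun g => Subtype.ext ?_⟩
  obtain ⟨l, h1, -, h3⟩ := exists_geod hS g.1
  have h4 := g.2
  rw [Nat.le_zero.1 h4, List.length_eq_zero_iff] at h1
  rw [← h3, h1]
  rfl

/-- `γ(n)² ≤ K γ(K n)` implies `n γ(n) ≼ γ(n)`. -/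
theorem dom_of_sq [Infinite Γ] (hf : S.Finite) (hS : Subgroup.closure S = ⊤) (K : ℕ) (hK : 1 ≤ K)
    (h : ∀ n : ℕ, 1 ≤ n → wball S n ^ 2 ≤ K * wball S (K * n)) :
    Dom (fun n => n * wball S n) (wball S) := by
  refine ⟨K * K, Nat.succ_le_of_lt (by positivity), fun n hn => ?_⟩
  have h1 := h (K * n) (Nat.succ_le_of_lt (by positivity))
  have h2 := lt_wball hf hS (K * n)
  have h3 : K * (n * wball S n) ≤ K * wball S (K * K * n) := by
    calc K * (n * wball S n) = (K * n) * wball S n := by ring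
      _ ≤ wball S (K * n) * wball S (K * n) :=
        Nat.mul_le_mul h2.le (wball_mono hf hS (Nat.le_mul_of_pos_left _ (by omega)))
      _ = wball S (K * n) ^ 2 := by ring
      _ ≤ K * wball S (K * (K * n)) := h1
      _ = K * wball S (K * K * n) := by rw [mul_assoc]
  exact Nat.le_of_mul_le_mul_left h3 (by omega)

/-- The chosen representative of the left coset of `g`. -/
noncomputable def rep (H : Subgroup Γ) (g : Γ) : Γ := (QuotientGroup.mk g : Γ ⧸ H).out

theorem rep_mem (H : Subgroup Γ) (g : Γ) : (rep H g)⁻¹ * g ∈ H := by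
  rw [← QuotientGroup.eq]
  exact QuotientGroup.out_eq' _

theorem rep_mul (H : Subgroup Γ) (s g : Γ) : rep H (s * g) = rep H (s * rep H g) := by
  unfold rep
  congr 1
  rw [QuotientGroup.eq, mul_inv_rev, mul_assoc, inv_mul_cancel_left]
  have := H.inv_mem (rep_mem H g)
  rwa [mul_inv_rev, inv_inv] at this

/-- The `H`-part of `g`. -/
noncomputable def hpart (H : Subgroup Γ) (g : Γ) : H := ⟨(rep H g)⁻¹ * g, rep_mem H g⟩

theorem hpart_mul (H : Subgroup Γ) (s g : Γ) :
    hpart H (s * g) = hpart H (s * rep H g) * hpart H g := by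
  apply Subtype.ext
  show (rep H (s * g))⁻¹ * (s * g) = (rep H (s * rep H g))⁻¹ * (s * rep H g) * ((rep H g)⁻¹ * g)
  rw [rep_mul]
  group

theorem hpart_lip (hf : S.Finite) (hS : Subgroup.closure S = ⊤) (H : Subgroup Γ) [H.FiniteIndex]
    (ψ : H →* Γ) : ∃ K : ℕ, ∀ g : Γ, wlen S (ψ (hpart H g)) ≤ K * (wlen S g + 1) := by
  classical
  have hfin : Finite (Γ ⧸ H) := inferInstance
  have h1 : (Set.range fun p : S × (Γ ⧸ H) => wlen S (ψ (hpart H (p.1.1 * p.2.out)))).Finite := by
    have : Finite S := hf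
    exact Set.finite_range _
  have h2 : (Set.range fun p : S × (Γ ⧸ H) => wlen S (ψ (hpart H (p.1.1⁻¹ * p.2.out)))).Finite := by
    have : Finite S := hf
    exact Set.finite_range _
  obtain ⟨K1, hK1⟩ := h1.bddAbove
  obtain ⟨K2, hK2⟩ := h2.bddAbove
  set K := K1 + K2 + wlen S (ψ (hpart H 1)) with hK
  refine ⟨K, fun g => ?_⟩
  obtain ⟨l, h3, h4, h5⟩ := exists_geod hS g
  have key : ∀ l : List Γ, (∀ x ∈ l, x ∈ S ∨ x⁻¹ ∈ S) →
      wlen S (ψ (hpart H l.prod)) ≤ K * (l.length + 1) := by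
    intro l
    induction l with
    | nil =>
      intro _
      rw [List.prod_nil, List.length_nil, zero_add, mul_one]
      omega
    | cons s l ih =>
      intro hl
      rw [List.prod_cons, hpart_mul, map_mul, List.length_cons, Nat.mul_succ]
      have h6 := ih fun x hx => hl x (by simp [hx])
      have h7 := wlen_mul_le hS (ψ (hpart H (s * rep H l.prod))) (ψ (hpart H l.prod))
      have h8 : wlen S (ψ (hpart H (s * rep H l.prod))) ≤ K := by
        rcases hl s (by simp) with h | h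
        · have := hK1 (Set.mem_range_self ((⟨s, h⟩, QuotientGroup.mk l.prod) : S × (Γ ⧸ H)))
          have h9 : wlen S (ψ (hpart H (s * rep H l.prod))) ≤ K1 := this
          omega
        · have := hK2 (Set.mem_range_self ((⟨s⁻¹, h⟩, QuotientGroup.mk l.prod) : S × (Γ ⧸ H)))
          simp only [inv_inv] at this
          have h9 : wlen S (ψ (hpart H (s * rep H l.prod))) ≤ K2 := this
          omega
      omega
  have h10 := key l h4
  rwa [h5, h3] at h10

/-- **Squares**: if `H` is a subgroup of finite index of `Γ` and `H × H` embeds in `Γ`, then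
`γ(n)² ≤ K γ(K n)` for some constant `K` and all `n ≥ 1`. -/
theorem square_bound (hf : S.Finite) (hS : Subgroup.closure S = ⊤) (H : Subgroup Γ)
    [H.FiniteIndex] (φ : H × H →* Γ) (hφ : Function.Injective φ) :
    ∃ K : ℕ, 1 ≤ K ∧ ∀ n : ℕ, 1 ≤ n → wball S n ^ 2 ≤ K * wball S (K * n) := by
  classical
  have hfin : Finite (Γ ⧸ H) := inferInstance
  obtain ⟨K1, hK1⟩ := hpart_lip hf hS H (φ.comp (MonoidHom.inl H H))
  obtain ⟨K2, hK2⟩ := hpart_lip hf hS H (φ.comp (MonoidHom.inr H H))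
  set q := Nat.card (Γ ⧸ H) with hq
  have hq0 : 0 < q := Nat.card_pos
  refine ⟨q * q + 2 * (K1 + K2), by nlinarith, fun n hn => ?_⟩
  have hbd : ∀ g h : Γ, wlen S g ≤ n → wlen S h ≤ n →
      wlen S (φ (hpart H g, hpart H h)) ≤ 2 * (K1 + K2) * n := by
    intro g h hg hh
    have h1 : (φ (hpart H g, hpart H h)) = φ (hpart H g, 1) * φ (1, hpart H h) := by
      rw [← map_mul]; simp
    rw [h1]
    refine (wlen_mul_le hS _ _).trans ?_
    have h2 : wlen S (φ (hpart H g, 1)) ≤ K1 * (wlen S g + 1) := hK1 g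
    have h3 : wlen S (φ (1, hpart H h)) ≤ K2 * (wlen S h + 1) := hK2 h
    have h4 : K1 * (wlen S g + 1) ≤ K1 * (2 * n) := Nat.mul_le_mul_left _ (by omega)
    have h5 : K2 * (wlen S h + 1) ≤ K2 * (2 * n) := Nat.mul_le_mul_left _ (by omega)
    calc _ ≤ K1 * (2 * n) + K2 * (2 * n) := by omega
      _ = 2 * (K1 + K2) * n := by ring
  have : Finite {g : Γ // wlen S g ≤ 2 * (K1 + K2) * n} := ball_finite hf hS _
  have : Finite {g : Γ // wlen S g ≤ n} := ball_finite hf hS _
  let f : {g : Γ // wlen S g ≤ n} × {g : Γ // wlen S g ≤ n} →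
      ((Γ ⧸ H) × (Γ ⧸ H)) × {g : Γ // wlen S g ≤ 2 * (K1 + K2) * n} := fun p =>
    ((QuotientGroup.mk p.1.1, QuotientGroup.mk p.2.1),
      ⟨φ (hpart H p.1.1, hpart H p.2.1), hbd _ _ p.1.2 p.2.2⟩)
  have hrec : ∀ g : Γ, g = rep H g * (hpart H g : Γ) := by
    intro g
    show g = rep H g * ((rep H g)⁻¹ * g)
    rw [mul_inv_cancel_left]
  have hcomp : ∀ g g' : Γ, (QuotientGroup.mk g : Γ ⧸ H) = QuotientGroup.mk g' →
      hpart H g = hpart H g' → g = g' := by
    intro g g' h1 h2
    rw [hrec g, hrec g', h2]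
    unfold rep
    rw [h1]
  have hinj : Function.Injective f := by
    rintro ⟨⟨g, hg⟩, ⟨h, hh⟩⟩ ⟨⟨g', hg'⟩, ⟨h', hh'⟩⟩ he
    simp only [f, Prod.mk.injEq, Subtype.mk.injEq] at he
    obtain ⟨⟨h1, h2⟩, h3⟩ := he
    have h4 := hφ h3
    simp only [Prod.mk.injEq] at h4
    have h5 := hcomp g g' h1 h4.1
    have h6 := hcomp h h' h2 h4.2
    subst h5 h6
    rfl
  have h1 := Nat.card_le_card_of_injective f hinj
  rw [Nat.card_prod, Nat.card_prod, Nat.card_prod, ← hq] at h1
  have h2 : wball S n ^ 2 ≤ q * q * wball S (2 * (K1 + K2) * n) := by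
    rw [sq]; exact h1
  refine h2.trans (Nat.mul_le_mul (Nat.le_add_right _ _) (wball_mono hf hS ?_))
  exact Nat.mul_le_mul_right _ (Nat.le_add_left _ _)

/-- Groups containing the square of a subgroup of finite index. -/
theorem dom_of_square [Infinite Γ] (hf : S.Finite) (hS : Subgroup.closure S = ⊤) (H : Subgroup Γ)
    [H.FiniteIndex] (φ : H × H →* Γ) (hφ : Function.Injective φ) :
    Dom (fun n => n * wball S n) (wball S) := by
  obtain ⟨K, hK, h⟩ := square_bound hf hS H φ hφ
  exact dom_of_sq hf hS K hK h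

/-! ## Polynomial growth -/

/-- `n γ(n) ≼ γ(n)` forces superpolynomial growth. -/
theorem not_poly (hf : S.Finite) (hS : Subgroup.closure S = ⊤)
    (h : Dom (fun n => n * wball S n) (wball S)) (K d : ℕ) :
    ∃ n : ℕ, 1 ≤ n ∧ K * n ^ d < wball S n := by
  obtain ⟨C, hC, h⟩ := h
  by_contra hc
  push Not at hc
  -- `γ (m ^ (k+1)) ≥ (m ^ k)^{…}` with `m = 2 C`
  set m := 2 * C with hm
  have hm2 : 2 ≤ m := by omega
  have h1 : ∀ n, 1 ≤ n → n * wball S n ≤ wball S (m * n) := fun n hn =>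
    (h n hn).trans (wball_mono hf hS (Nat.mul_le_mul_right _ (by omega)))
  have h2 : ∀ k, m ^ (∑ i ∈ Finset.range k, i) ≤ wball S (m ^ k) := by
    intro k
    induction k with
    | zero => simpa using wball_pos hf hS 1
    | succ k ih =>
      rw [Finset.sum_range_succ, pow_add, pow_succ, mul_comm (m ^ k) m]
      refine le_trans ?_ (h1 (m ^ k) (Nat.one_le_pow _ _ (by omega)))
      rw [mul_comm]
      exact Nat.mul_le_mul_left _ ih
  have h3 : ∀ k, m ^ (∑ i ∈ Finset.range k, i) ≤ K * m ^ (k * d) := fun k => by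
    rw [pow_mul]; exact (h2 k).trans (hc _ (Nat.one_le_pow _ _ (by omega)))
  have h4 : K < m ^ K := Nat.lt_pow_self (by omega)
  have h5 := h3 (2 * (K + d) + 3)
  have h6 : m ^ (∑ i ∈ Finset.range (2 * (K + d) + 3), i) <
      m ^ (K + (2 * (K + d) + 3) * d) := by
    refine lt_of_le_of_lt h5 ?_
    rw [pow_add]
    exact Nat.mul_lt_mul_of_pos_right h4 (by positivity)
  have h7 := (Nat.pow_lt_pow_iff_right (by omega)).1 h6
  rw [Finset.sum_range_id] at h7
  have h8 : (2 * (K + d) + 3) * (2 * (K + d) + 3 - 1) / 2 = (2 * (K + d) + 3) * (K + d + 1) := by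
    rw [show 2 * (K + d) + 3 - 1 = 2 * (K + d + 1) by omega]
    rw [show (2 * (K + d) + 3) * (2 * (K + d + 1)) = 2 * ((2 * (K + d) + 3) * (K + d + 1)) by ring]
    omega
  rw [h8] at h7
  nlinarith [Nat.zero_le (K * d), Nat.zero_le (K * K)]

end

end Pool.Agent.Y36.SG
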