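import Mathlib

/-!
# Spherical and ball growth of arbitrary groups

`wlen S g` is the word length of `g` with respect to `S` (letters from `S` and inverses), `wball S n`
and `wsph S n` are the numbers of elements of length at most `n` and exactly `n`.
-/

set_option autoImplicit false

namespace Pool.Agent.Y36.SG

/-- `f ≼ h`: there is `C ≥ 1` with `f n ≤ h (C n)` for all `n ≥ 1`. -/
def Dom (f h : ℕ → ℕ) : Prop := ∃ C : ℕ, 1 ≤ C ∧ ∀ n : ℕ, 1 ≤ n → f n ≤ h (C * n)

section
variable {Γ : Type} [Group Γ]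

/-- The word length with respect to `S`: the least number of factors from `S` and the inverses of
the elements of `S` in a product equal to `g`. -/
noncomputable def wlen (S : Set Γ) (g : Γ) : ℕ :=
  sInf {n : ℕ | ∃ l : List Γ, l.length = n ∧ (∀ x ∈ l, x ∈ S ∨ x⁻¹ ∈ S) ∧ l.prod = g}

/-- The number of elements of length at most `n`. -/
noncomputable def wball (S : Set Γ) (n : ℕ) : ℕ := Nat.card {g : Γ // wlen S g ≤ n}

/-- The number of elements of length exactly `n`. -/
noncomputable def wsph (S : Set Γ) (n : ℕ) : ℕ := Nat.card {g : Γ // wlen S g = n}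

variable {S : Set Γ}

theorem exists_word (hS : Subgroup.closure S = ⊤) (g : Γ) :
    ∃ l : List Γ, (∀ x ∈ l, x ∈ S ∨ x⁻¹ ∈ S) ∧ l.prod = g := by
  have hg : g ∈ Subgroup.closure S := by rw [hS]; trivial
  induction hg using Subgroup.closure_induction with
  | mem x hx => exact ⟨[x], by simp [hx], by simp⟩
  | one => exact ⟨[], by simp, rfl⟩
  | mul x y _ _ hx hy =>
    obtain ⟨l, h1, h2⟩ := hx
    obtain ⟨m, h3, h4⟩ := hy
    refine ⟨l ++ m, ?_, by rw [List.prod_append, h2, h4]⟩
    intro z hz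
    rcases List.mem_append.1 hz with h | h
    · exact h1 z h
    · exact h3 z h
  | inv x _ hx =>
    obtain ⟨l, h1, h2⟩ := hx
    refine ⟨(l.map fun x => x⁻¹).reverse, ?_, by rw [← List.prod_inv_reverse, h2]⟩
    intro z hz
    rw [List.mem_reverse, List.mem_map] at hz
    obtain ⟨y, hy, rfl⟩ := hz
    rw [inv_inv]
    exact (h1 y hy).symm

theorem exists_geod (hS : Subgroup.closure S = ⊤) (g : Γ) :
    ∃ l : List Γ, l.length = wlen S g ∧ (∀ x ∈ l, x ∈ S ∨ x⁻¹ ∈ S) ∧ l.prod = g := by
  obtain ⟨l, h1, h2⟩ := exists_word hS g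
  exact Nat.sInf_mem (s := {n : ℕ | ∃ l : List Γ, l.length = n ∧
    (∀ x ∈ l, x ∈ S ∨ x⁻¹ ∈ S) ∧ l.prod = g}) ⟨l.length, l, rfl, h1, h2⟩

theorem wlen_le (l : List Γ) (h : ∀ x ∈ l, x ∈ S ∨ x⁻¹ ∈ S) : wlen S l.prod ≤ l.length :=
  Nat.sInf_le ⟨l, rfl, h, rfl⟩

theorem wlen_one : wlen S (1 : Γ) = 0 := Nat.le_zero.1 (wlen_le [] (by simp))

theorem wlen_mul_le (hS : Subgroup.closure S = ⊤) (g h : Γ) :
    wlen S (g * h) ≤ wlen S g + wlen S h := by
  obtain ⟨l, h1, h2, h3⟩ := exists_geod hS g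
  obtain ⟨m, h4, h5, h6⟩ := exists_geod hS h
  have := wlen_le (S := S) (l ++ m) (by
    intro z hz
    rcases List.mem_append.1 hz with h | h
    · exact h2 z h
    · exact h5 z h)
  rwa [List.prod_append, h3, h6, List.length_append, h1, h4] at this

theorem wlen_inv_le (hS : Subgroup.closure S = ⊤) (g : Γ) : wlen S g⁻¹ ≤ wlen S g := by
  obtain ⟨l, h1, h2, h3⟩ := exists_geod hS g
  have := wlen_le (S := S) (l.map fun x => x⁻¹).reverse (by
    intro z hz
    rw [List.mem_reverse, List.mem_map] at hz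
    obtain ⟨y, hy, rfl⟩ := hz
    rw [inv_inv]
    exact (h2 y hy).symm)
  rwa [← List.prod_inv_reverse, h3, List.length_reverse, List.length_map, h1] at this

theorem wlen_inv (hS : Subgroup.closure S = ⊤) (g : Γ) : wlen S g⁻¹ = wlen S g :=
  le_antisymm (wlen_inv_le hS g) (by simpa using wlen_inv_le hS g⁻¹)

theorem wlen_prod_le (hS : Subgroup.closure S = ⊤) (K : ℕ) (l : List Γ)
    (h : ∀ x ∈ l, wlen S x ≤ K) : wlen S l.prod ≤ K * l.length := by
  induction l with
  | nil => simp [wlen_one]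
  | cons x l ih =>
    rw [List.prod_cons, List.length_cons]
    have h1 := wlen_mul_le hS x l.prod
    have h2 := h x (by simp)
    have h3 := ih fun y hy => h y (by simp [hy])
    rw [Nat.mul_succ]
    omega

theorem ball_finite (hf : S.Finite) (hS : Subgroup.closure S = ⊤) (n : ℕ) :
    {g : Γ | wlen S g ≤ n}.Finite := by
  classical
  set T : Set Γ := S ∪ (fun x => x⁻¹) '' S with hT
  have hTf : T.Finite := hf.union (hf.image _)
  have : Finite T := hTf
  have h1 : {l : List T | l.length ≤ n}.Finite := List.finite_length_le T n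
  refine (h1.image fun l => (l.map Subtype.val).prod).subset ?_
  intro g hg
  obtain ⟨l, h2, h3, h4⟩ := exists_geod hS g
  have h5 : ∀ x ∈ l, x ∈ T := by
    intro x hx
    rcases h3 x hx with h | h
    · exact Or.inl h
    · exact Or.inr ⟨x⁻¹, h, inv_inv x⟩
  refine ⟨l.attach.map fun x => ⟨x.1, h5 x.1 x.2⟩, ?_, ?_⟩
  · simp only [Set.mem_ofPred_eq, List.length_map, List.length_attach, h2]
    exact hg
  · simp only [List.map_map]
    rw [show (Subtype.val ∘ fun x : {x // x ∈ l} => (⟨x.1, h5 x.1 x.2⟩ : T)) = Subtype.val from rfl,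
      List.attach_map_subtype_val, h4]

theorem wball_mono (hf : S.Finite) (hS : Subgroup.closure S = ⊤) {m n : ℕ} (h : m ≤ n) :
    wball S m ≤ wball S n :=
  Nat.card_mono (ball_finite hf hS n) fun _ hg => le_trans hg h

theorem wsph_le_wball (hf : S.Finite) (hS : Subgroup.closure S = ⊤) (n : ℕ) :
    wsph S n ≤ wball S n :=
  Nat.card_mono (ball_finite hf hS n) fun _ hg => le_of_eq hg

theorem wball_pos (hf : S.Finite) (hS : Subgroup.closure S = ⊤) (n : ℕ) : 1 ≤ wball S n := by
  have : Finite {g : Γ // wlen S g ≤ n} := ball_finite hf hS n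
  have : Nonempty {g : Γ // wlen S g ≤ n} := ⟨⟨1, by rw [wlen_one]; exact Nat.zero_le _⟩⟩
  exact Nat.card_pos

/-- Discrete intermediate value theorem. -/
theorem ivt (f : ℕ → ℕ) (hf : ∀ i, f (i + 1) ≤ f i + 1) (N : ℕ) (h0 : f 0 ≤ N) (L : ℕ)
    (hL : N ≤ f L) : ∃ k, k ≤ L ∧ f k = N := by
  induction L with
  | zero => exact ⟨0, le_rfl, le_antisymm h0 hL⟩
  | succ L ih =>
    by_cases h : N ≤ f L
    · obtain ⟨k, hk, hk'⟩ := ih h
      exact ⟨k, by omega, hk'⟩
    · have := hf L
      exact ⟨L + 1, le_rfl, by omega⟩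

theorem exists_long [Infinite Γ] (hf : S.Finite) (hS : Subgroup.closure S = ⊤) (L : ℕ) :
    ∃ x : ℕ → Γ, x 0 = 1 ∧ (∀ k, wlen S ((x k)⁻¹ * x (k + 1)) ≤ 1) ∧ wlen S (x L) = L ∧
      ∀ k, wlen S (x k) ≤ k := by
  obtain ⟨g, hg⟩ : ∃ g : Γ, L < wlen S g := by
    by_contra hc
    push Not at hc
    have h1 := ball_finite hf hS L
    have h2 : {g : Γ | wlen S g ≤ L} = Set.univ := Set.eq_univ_of_forall hc
    rw [h2] at h1
    exact Set.infinite_univ h1
  obtain ⟨l, h1, h2, h3⟩ := exists_geod hS g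
  have hle : ∀ k, wlen S (l.take k).prod ≤ k := fun k =>
    (wlen_le (l.take k) fun x hx => h2 x (List.mem_of_mem_take hx)).trans (by
      rw [List.length_take]; exact min_le_left _ _)
  refine ⟨fun k => (l.take k).prod, by simp, fun k => ?_, ?_, hle⟩
  · show wlen S ((l.take k).prod⁻¹ * (l.take (k + 1)).prod) ≤ 1
    by_cases hk : k < l.length
    · rw [List.take_succ_eq_append_getElem hk, List.prod_append, inv_mul_cancel_left]
      refine (wlen_le [l[k]] ?_).trans (by simp)
      intro x hx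
      rw [List.mem_singleton] at hx
      rw [hx]
      exact h2 _ (List.getElem_mem hk)
    · rw [List.take_of_length_le (by omega), List.take_of_length_le (by omega), inv_mul_cancel,
        wlen_one]
      exact Nat.zero_le _
  · show wlen S (l.take L).prod = L
    apply le_antisymm (hle L)
    have h4 : g = (l.take L).prod * (l.drop L).prod := by
      rw [← List.prod_append, List.take_append_drop, h3]
    have h5 := wlen_mul_le hS (l.take L).prod (l.drop L).prod
    rw [← h4] at h5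
    have h6 := wlen_le (S := S) (l.drop L) fun x hx => h2 x (List.mem_of_mem_drop hx)
    rw [List.length_drop, h1] at h6
    omega

/-- **The ball and the spheres of an infinite group**: `γ(n) ≤ (2 n + 1) γ^sph(N)` for all
`N ≥ n`. -/
theorem ball_le_sphere [Infinite Γ] (hf : S.Finite) (hS : Subgroup.closure S = ⊤) {n N : ℕ}
    (h : n ≤ N) : wball S n ≤ (2 * n + 1) * wsph S N := by
  classical
  obtain ⟨x, hx0, hx1, hxL, hxk⟩ := exists_long hf hS (N + n)
  have key : ∀ g : Γ, wlen S g ≤ n → ∃ k, k ≤ N + n ∧ wlen S (g * x k) = N := by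
    intro g hg
    apply ivt (fun k => wlen S (g * x k))
    · intro k
      show wlen S (g * x (k + 1)) ≤ wlen S (g * x k) + 1
      have h1 := wlen_mul_le hS (g * x k) ((x k)⁻¹ * x (k + 1))
      rw [mul_assoc, mul_inv_cancel_left] at h1
      exact h1.trans (Nat.add_le_add_left (hx1 k) _)
    · show wlen S (g * x 0) ≤ N
      rw [hx0, mul_one]; omega
    · show N ≤ wlen S (g * x (N + n))
      have h1 := wlen_mul_le hS g⁻¹ (g * x (N + n))
      rw [inv_mul_cancel_left, hxL, wlen_inv hS] at h1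
      omega
  choose! k hk1 hk2 using key
  have hk3 : ∀ g : Γ, wlen S g ≤ n → N ≤ n + k g := by
    intro g hg
    have h1 := wlen_mul_le hS g (x (k g))
    rw [hk2 g hg] at h1
    have := hxk (k g)
    omega
  have : Finite {g : Γ // wlen S g = N} :=
    (ball_finite hf hS N).subset fun g hg => le_of_eq hg
  let f : {g : Γ // wlen S g ≤ n} → Fin (2 * n + 1) × {g : Γ // wlen S g = N} := fun g =>
    (⟨k g.1 + n - N, by have := hk1 g.1 g.2; omega⟩, ⟨g.1 * x (k g.1), hk2 g.1 g.2⟩)
  have hinj : Function.Injective f := by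
    rintro ⟨g, hg⟩ ⟨g', hg'⟩ he
    simp only [f, Prod.mk.injEq, Fin.mk.injEq, Subtype.mk.injEq] at he
    have h1 := hk3 g hg
    have h2 := hk3 g' hg'
    have h3 : k g = k g' := by omega
    rw [h3] at he
    exact Subtype.ext (mul_right_cancel he.2)
  have := Nat.card_le_card_of_injective f hinj
  rwa [Nat.card_prod, Nat.card_fin] at this

/-- `∑_{k=n+1}^{2n} γ^sph(C k) ≤ γ(2 C n)`. -/
theorem sum_sphere_le (hf : S.Finite) (hS : Subgroup.closure S = ⊤) (C : ℕ) (hC : 1 ≤ C) (n : ℕ) :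
    ∑ i ∈ Finset.range n, wsph S (C * (n + 1 + i)) ≤ wball S (2 * C * n) := by
  classical
  have : ∀ m, Finite {g : Γ // wlen S g = m} := fun m =>
    (ball_finite hf hS m).subset fun g hg => le_of_eq hg
  have : ∀ m, Finite {g : Γ // wlen S g ≤ m} := fun m => ball_finite hf hS m
  have h1 : ∑ i ∈ Finset.range n, wsph S (C * (n + 1 + i)) =
      Nat.card (Σ i : Fin n, {g : Γ // wlen S g = C * (n + 1 + i)}) := by
    rw [Nat.card_sigma, ← Fin.sum_univ_eq_sum_range (fun i => wsph S (C * (n + 1 + i)))]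
    rfl
  rw [h1]
  refine Nat.card_le_card_of_injective
    (fun p => (⟨p.2.1, ?_⟩ : {g : Γ // wlen S g ≤ 2 * C * n})) ?_
  · rw [p.2.2]
    have h2 := p.1.2
    have : C * (n + 1 + p.1) ≤ C * (2 * n) := Nat.mul_le_mul_left C (by omega)
    calc C * (n + 1 + p.1) ≤ C * (2 * n) := this
      _ = 2 * C * n := by ring
  · rintro ⟨i, g, hg⟩ ⟨j, g', hg'⟩ he
    simp only [Subtype.mk.injEq] at he
    subst he
    have h3 : C * (n + 1 + (i : ℕ)) = C * (n + 1 + (j : ℕ)) := by rw [← hg, ← hg']
    have h4 := Nat.eq_of_mul_eq_mul_left (by omega) h3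
    have h5 : i = j := Fin.ext (by omega)
    subst h5
    rfl

/-- If `n γ(n) ≼ γ(n)` then `γ(n) ≤ γ^sph(N)` for all `N ≥ C n`. -/
theorem ball_le_all_spheres [Infinite Γ] (hf : S.Finite) (hS : Subgroup.closure S = ⊤)
    (hdom : Dom (fun n => n * wball S n) (wball S)) :
    ∃ C : ℕ, 1 ≤ C ∧ ∀ n : ℕ, 1 ≤ n → ∀ N : ℕ, C * n ≤ N → wball S n ≤ wsph S N := by
  obtain ⟨C, hC, h⟩ := hdom
  have hC0 : 0 < C := hC
  refine ⟨3 * C * C * C, Nat.succ_le_of_lt (by positivity), fun n hn N hN => ?_⟩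
  set m := 3 * C * n with hm
  have hm1 : 3 * C ≤ m := by rw [hm]; exact Nat.le_mul_of_pos_right _ hn
  have hm0 : 0 < m := by omega
  have h1 := h m hm0
  have h2 := h (C * m) (Nat.succ_le_of_lt (by positivity))
  simp only at h1 h2
  have h4 : C * (C * m) = 3 * C * C * C * n := by rw [hm]; ring
  have h3 := ball_le_sphere hf hS (n := C * (C * m)) (N := N) (by rw [h4]; exact hN)
  have h5 : wball S n ≤ wball S m := wball_mono hf hS (by
    rw [hm]; exact Nat.le_mul_of_pos_left _ (by omega))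
  have h6 : 2 * (C * (C * m)) + 1 ≤ 3 * (C * (C * m)) := by
    have : 0 < C * (C * m) := by positivity
    omega
  have h8 : C * m * (m * wball S m) ≤ C * m * (3 * C * wsph S N) := by
    calc C * m * (m * wball S m) ≤ C * m * wball S (C * m) := Nat.mul_le_mul_left _ h1
      _ ≤ wball S (C * (C * m)) := h2
      _ ≤ (2 * (C * (C * m)) + 1) * wsph S N := h3
      _ ≤ 3 * (C * (C * m)) * wsph S N := Nat.mul_le_mul_right _ h6
      _ = _ := by ring
  have h9 := Nat.le_of_mul_le_mul_left h8 (by positivity)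
  have h10 : m * wball S m ≤ m * wsph S N := h9.trans (Nat.mul_le_mul_right _ hm1)
  exact h5.trans (Nat.le_of_mul_le_mul_left h10 hm0)

/-- **Characterization**: the growth function is dominated by the spherical growth function if and
only if `n γ(n) ≼ γ(n)`. -/
theorem dom_iff [Infinite Γ] (hf : S.Finite) (hS : Subgroup.closure S = ⊤) :
    Dom (wball S) (wsph S) ↔ Dom (fun n => n * wball S n) (wball S) := by
  constructor
  · rintro ⟨C, hC, h⟩
    refine ⟨2 * C, by omega, fun n hn => ?_⟩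
    refine le_trans ?_ (sum_sphere_le hf hS C hC n)
    have h1 : ∀ i ∈ Finset.range n, wball S n ≤ wsph S (C * (n + 1 + i)) := fun i _ =>
      (wball_mono hf hS (by omega)).trans (h (n + 1 + i) (by omega))
    have h2 := Finset.card_nsmul_le_sum _ _ _ h1
    rwa [Finset.card_range, smul_eq_mul] at h2
  · intro h
    obtain ⟨C, hC, h1⟩ := ball_le_all_spheres hf hS h
    exact ⟨C, hC, fun n hn => h1 n hn _ le_rfl⟩

end

end Pool.Agent.Y36.SG
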