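import Pool.Agent.H776R2.Grig.Realize
import Pool.Agent.H776R2.Grig.Comm

/-!
# Invariants of the tree conjugacy classes of label functions
-/

set_option autoImplicit false

namespace Pool.Agent.Y36.SG

open Pool.Agent.Results.MP_03d093_al Pool.Agent.H776R2.Grig

/-- The invariant of a function on the words of length `k` under the automorphisms of the tree. -/
def inv : ℕ → (List Bool → Bool) → ℕ
  | 0, p => if p [] then 1 else 0
  | k + 1, p => Nat.pair (min (inv k fun v => p (false :: v)) (inv k fun v => p (true :: v)))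
      (max (inv k fun v => p (false :: v)) (inv k fun v => p (true :: v)))

/-- Endomorphisms of the binary tree. -/
structure TreeFn (h : List Bool → List Bool) : Prop where
  inj : Function.Injective h
  len : ∀ v, (h v).length = v.length
  pre : ∀ v n, (h v).take n = h (v.take n)

theorem TreeFn.head {h : List Bool → List Bool} (hh : TreeFn h) (b : Bool) :
    ∃ x, ∀ v, h (b :: v) = x :: (h (b :: v)).tail := by
  obtain ⟨x, hx⟩ : ∃ x, h [b] = [x] := List.length_eq_one_iff.1 (by rw [hh.len]; rfl)
  refine ⟨x, fun v => ?_⟩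
  have h1 := hh.pre (b :: v) 1
  have h2 : (b :: v).take 1 = [b] := by simp
  rw [h2, hx] at h1
  cases h3 : h (b :: v) with
  | nil =>
    have := hh.len (b :: v)
    rw [h3] at this
    simp at this
  | cons y l =>
    rw [h3] at h1
    simp only [List.take_succ_cons, List.take_zero, List.cons.injEq, and_true] at h1
    rw [h1, List.tail_cons]

theorem TreeFn.section {h : List Bool → List Bool} (hh : TreeFn h) (b : Bool) :
    TreeFn fun v => (h (b :: v)).tail := by
  obtain ⟨x, hx⟩ := hh.head b
  refine ⟨?_, ?_, ?_⟩
  · intro v w hvw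
    have h1 : h (b :: v) = h (b :: w) := by
      rw [hx v, hx w]
      simp only at hvw
      rw [hvw]
    have h2 := hh.inj h1
    simpa using h2
  · intro v
    rw [List.length_tail, hh.len]
    simp
  · intro v n
    have h1 := hh.pre (b :: v) (n + 1)
    rw [List.take_succ_cons] at h1
    rw [← h1, hx v]
    simp

theorem inv_eq (k : ℕ) : ∀ (h : List Bool → List Bool), TreeFn h → ∀ p q : List Bool → Bool,
    (∀ v, v.length = k → q (h v) = p v) → inv k p = inv k q := by
  induction k with
  | zero =>
    intro h hh p q hpq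
    have h0 : h [] = [] := List.length_eq_zero_iff.1 (by rw [hh.len]; rfl)
    have h1 := hpq [] rfl
    rw [h0] at h1
    unfold inv
    rw [h1]
  | succ k ih =>
    intro h hh p q hpq
    have key : ∀ b x, (∀ v, h (b :: v) = x :: (h (b :: v)).tail) →
        inv k (fun v => p (b :: v)) = inv k (fun v => q (x :: v)) := by
      intro b x hx
      refine ih _ (hh.section b) _ _ fun v hv => ?_
      rw [← hx v]
      exact hpq (b :: v) (by simp [hv])
    obtain ⟨x0, hx0⟩ := hh.head false
    obtain ⟨x1, hx1⟩ := hh.head true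
    have hne : x0 ≠ x1 := by
      rintro rfl
      have h1 : h [false] = h [true] := by
        rw [hx0 [], hx1 []]
        have e0 : (h [false]).tail = [] := List.length_eq_zero_iff.1 (by
          rw [List.length_tail, hh.len]; rfl)
        have e1 : (h [true]).tail = [] := List.length_eq_zero_iff.1 (by
          rw [List.length_tail, hh.len]; rfl)
        rw [e0, e1]
      have h2 := hh.inj h1
      simp at h2
    have k0 := key false x0 hx0
    have k1 := key true x1 hx1
    unfold inv
    rw [k0, k1]
    cases x0 <;> cases x1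
    · exact absurd rfl hne
    · rfl
    · rw [min_comm, max_comm]
    · exact absurd rfl hne

/-- Values of the invariant. -/
def vals : ℕ → Finset ℕ
  | 0 => {0, 1}
  | k + 1 => (vals k ×ˢ vals k).image fun a => Nat.pair (min a.1 a.2) (max a.1 a.2)

theorem exists_of_mem_vals (k : ℕ) : ∀ x ∈ vals k, ∃ p : List Bool → Bool, inv k p = x := by
  induction k with
  | zero =>
    intro x hx
    simp only [vals, Finset.mem_insert, Finset.mem_singleton] at hx
    rcases hx with rfl | rfl
    · exact ⟨fun _ => false, by simp [inv]⟩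
    · exact ⟨fun _ => true, by simp [inv]⟩
  | succ k ih =>
    intro x hx
    rw [vals, Finset.mem_image] at hx
    obtain ⟨⟨a, b⟩, hab, rfl⟩ := hx
    rw [Finset.mem_product] at hab
    obtain ⟨p, hp⟩ := ih a hab.1
    obtain ⟨q, hq⟩ := ih b hab.2
    refine ⟨fun v => match v with
      | [] => false
      | false :: v => p v
      | true :: v => q v, ?_⟩
    unfold inv
    simp only
    rw [hp, hq]

theorem card_vals_sq (k : ℕ) : (vals k).card * (vals k).card ≤ 2 * (vals (k + 1)).card := by
  rw [← Finset.card_product]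
  rw [vals]
  refine Finset.card_le_mul_card_image _ 2 ?_
  intro y hy
  rw [Finset.mem_image] at hy
  obtain ⟨⟨a, b⟩, -, rfl⟩ := hy
  refine le_trans (Finset.card_le_card (t := {(a, b), (b, a)}) ?_) Finset.card_le_two
  rintro ⟨c, d⟩ hcd
  rw [Finset.mem_filter] at hcd
  have h1 := hcd.2
  simp only at h1
  rw [Nat.pair_eq_pair] at h1
  simp only [Finset.mem_insert, Finset.mem_singleton, Prod.mk.injEq]
  omega

theorem card_vals_zero : (vals 0).card = 2 := by decide

theorem card_vals_one : (vals 1).card = 3 := by decide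

theorem card_vals (k : ℕ) : 2 ^ (2 ^ k + 1) ≤ (vals (k + 2)).card := by
  induction k with
  | zero =>
    have h := card_vals_sq 1
    rw [card_vals_one] at h
    norm_num at h ⊢
    omega
  | succ k ih =>
    have h := card_vals_sq (k + 2)
    have h1 := Nat.mul_le_mul ih ih
    have h2 : 2 ^ (2 ^ k + 1) * 2 ^ (2 ^ k + 1) = 2 * 2 ^ (2 ^ (k + 1) + 1) := by
      rw [← pow_add, ← pow_succ']
      congr 1
      ring
    rw [h2] at h1
    have h3 := h1.trans h
    exact Nat.le_of_mul_le_mul_left h3 (by norm_num)

/-- `t` is an automorphism of the binary tree conjugating `g` to `h`. -/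
def TreeConj (g h : Equiv.Perm (List Bool)) : Prop :=
  ∃ t : Equiv.Perm (List Bool), TA t ∧ t * g * t⁻¹ = h

theorem TreeConj.refl (g : Equiv.Perm (List Bool)) : TreeConj g g :=
  ⟨1, ⟨fun _ => rfl, fun _ _ => rfl⟩, by simp⟩

theorem treeFn_of_TA {t : Equiv.Perm (List Bool)} (ht : TA t) : TreeFn t :=
  ⟨t.injective, ht.1, ht.2⟩

/-- The label functions of conjugate elements. -/
theorem lab_conj {k : ℕ} {p q : List Bool → Bool} {g h t : Equiv.Perm (List Bool)}
    (hg : Lab (k + 2) (fun u => p (u.take k)) g) (hh : Lab (k + 2) (fun u => q (u.take k)) h)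
    (ht : TA t) (hc : t * g * t⁻¹ = h) (v : List Bool) (hv : v.length = k) : q (t v) = p v := by
  set u : List Bool := v ++ [false, false] with hu
  have hul : u.length = k + 2 := by rw [hu, List.length_append, hv]; rfl
  have hut : u.take k = v := by
    rw [hu, List.take_append_of_le_length (by omega), List.take_of_length_le (by omega)]
  have htu : (t u).length = k + 2 := by rw [ht.1, hul]
  have htut : (t u).take k = t v := by rw [ht.2, hut]
  have hy : ∀ x : Bool, ∃ y : Bool, t (u ++ [x]) = t u ++ [y] := by
    intro x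
    have h1 : (t (u ++ [x])).take (k + 2) = t u := by
      rw [ht.2, List.take_append_of_le_length (by omega), List.take_of_length_le (by omega)]
    have h2 : (t (u ++ [x])).length = k + 3 := by
      rw [ht.1, List.length_append, hul]; rfl
    have h3 : ((t (u ++ [x])).drop (k + 2)).length = 1 := by
      rw [List.length_drop, h2]; omega
    obtain ⟨y, hy⟩ := List.length_eq_one_iff.1 h3
    refine ⟨y, ?_⟩
    rw [← h1, ← hy, List.take_append_drop]
  choose y hy using hy
  have hyne : y true ≠ y false := by
    intro h1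
    have h2 : t (u ++ [true]) = t (u ++ [false]) := by rw [hy, hy, h1]
    have h3 := t.injective h2
    simp at h3
  have hconj : ∀ z, h (t z) = t (g z) := by
    intro z
    rw [← hc]
    simp
  have key : ∀ x : Bool, xor (y x) (q (t v)) = y (xor x (p v)) := by
    intro x
    have h1 := hconj (u ++ [x])
    rw [hg u hul, hy, hy, hh (t u) htu] at h1
    simp only [htut, hut] at h1
    have h2 := List.append_cancel_left h1
    simpa using h2
  have k1 := key true
  have k2 := key false
  cases hq : q (t v) <;> cases hp : p v <;> rw [hq, hp] at k1 k2 <;>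
    cases h1 : y true <;> cases h2 : y false <;> simp_all

/-- **The realized tree conjugacy classes.** -/
theorem exists_family : ∃ A : ℝ, 0 < A ∧ ∀ k : ℕ, ∃ W : ℕ → List SphereBall.Lt,
    (∀ x ∈ vals k, ((W x).length : ℝ) ≤ A * lam ^ k) ∧
    ∀ x ∈ vals k, ∀ y ∈ vals k,
      TreeConj (SphereBall.ev (W x)) (SphereBall.ev (W y)) → x = y := by
  obtain ⟨A, hA, h⟩ := realize
  refine ⟨A, hA, fun k => ?_⟩
  have h1 : ∀ x : ℕ, ∃ (p : List Bool → Bool) (w : List SphereBall.Lt), x ∈ vals k →
      inv k p = x ∧ (w.length : ℝ) ≤ A * lam ^ k ∧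
        Lab (k + 2) (fun u => p (u.take k)) (SphereBall.ev w) := by
    intro x
    by_cases hx : x ∈ vals k
    · obtain ⟨p, hp⟩ := exists_of_mem_vals k x hx
      obtain ⟨w, hw1, hw2⟩ := h k p
      exact ⟨p, w, fun _ => ⟨hp, hw1, hw2⟩⟩
    · exact ⟨fun _ => false, [], fun hx' => absurd hx' hx⟩
  choose p W hW using h1
  refine ⟨W, fun x hx => (hW x hx).2.1, fun x hx y hy hc => ?_⟩
  obtain ⟨t, ht, htc⟩ := hc
  have h2 := lab_conj (hW x hx).2.2 (hW y hy).2.2 ht htc
  have h3 := inv_eq k t (treeFn_of_TA ht) (p x) (p y) h2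
  rw [(hW x hx).1, (hW y hy).1] at h3
  exact h3

end Pool.Agent.Y36.SG
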