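import Pool.Agent.Y36.SG.Grig
import Pool.Agent.Y36.SG.Expo
import Pool.Agent.Y36.SG.Inv
import Pool.Agent.H776R2.Grig.Fin1

/-!
# Conjugacy growth, and growth of the number of tree conjugacy classes
-/

set_option autoImplicit false

namespace Pool.Agent.Y36.SG

open Pool.Agent.Results.MP_03d093_al Pool.Agent.H776R2.Grig

section
variable {Γ : Type} [Group Γ] {S T : Set Γ} {X Y : Type}

/-- The number of conjugacy classes of `Γ` containing an element of length at most `n`. -/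
noncomputable def wcc (S : Set Γ) (n : ℕ) : ℕ :=
  Nat.card {c : ConjClasses Γ // ∃ g, wlen S g ≤ n ∧ ConjClasses.mk g = c}

/-- The set of the permutations of the form `t g t⁻¹`, where `t` is an automorphism of the tree. -/
def TClass (g : Equiv.Perm (List Bool)) : Set (Equiv.Perm (List Bool)) := {h | TreeConj g h}

/-- The number of the sets `TClass (φ g)`, where `g` has length at most `n`. -/
noncomputable def wtc (S : Set Γ) (φ : Γ →* Equiv.Perm (List Bool)) (n : ℕ) : ℕ :=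
  Nat.card {c : Set (Equiv.Perm (List Bool)) // ∃ g, wlen S g ≤ n ∧ TClass (φ g) = c}

/-- The number of values of `F` on the ball. -/
noncomputable def cnt (S : Set Γ) (F : Γ → X) (n : ℕ) : ℕ :=
  Nat.card {c : X // ∃ g, wlen S g ≤ n ∧ F g = c}

theorem cnt_finite (hf : S.Finite) (hS : Subgroup.closure S = ⊤) (F : Γ → X) (n : ℕ) :
    {c : X | ∃ g, wlen S g ≤ n ∧ F g = c}.Finite :=
  (ball_finite hf hS n).image F

theorem cnt_le (hf : S.Finite) (hS : Subgroup.closure S = ⊤) (F : Γ → X) {m n : ℕ}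
    (h : ∀ g, wlen T g ≤ m → wlen S g ≤ n) : cnt T F m ≤ cnt S F n :=
  Nat.card_mono (cnt_finite hf hS F n) fun _ ⟨g, hg, hc⟩ => ⟨g, h g hg, hc⟩

theorem cnt_le_wball (hf : S.Finite) (hS : Subgroup.closure S = ⊤) (F : Γ → X) (n : ℕ) :
    cnt S F n ≤ wball S n := by
  have : Finite {g : Γ // wlen S g ≤ n} := ball_finite hf hS n
  refine Nat.card_le_card_of_surjective
    (fun g : {g : Γ // wlen S g ≤ n} =>
      (⟨F g.1, g.1, g.2, rfl⟩ : {c : X // ∃ g, wlen S g ≤ n ∧ F g = c})) ?_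
  rintro ⟨c, g, hg, rfl⟩
  exact ⟨⟨g, hg⟩, rfl⟩

theorem cnt_comp (hf : S.Finite) (hS : Subgroup.closure S = ⊤) (F : Γ → X) (F' : Γ → Y)
    (h : ∀ g g', F g = F g' → F' g = F' g') (n : ℕ) : cnt S F' n ≤ cnt S F n := by
  have : Finite {c : X // ∃ g, wlen S g ≤ n ∧ F g = c} := cnt_finite hf hS F n
  refine Nat.card_le_card_of_surjective
    (fun c : {c : X // ∃ g, wlen S g ≤ n ∧ F g = c} =>
      (⟨F' c.2.choose, c.2.choose, c.2.choose_spec.1, rfl⟩ :
        {c : Y // ∃ g, wlen S g ≤ n ∧ F' g = c})) ?_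
  rintro ⟨c, g, hg, rfl⟩
  refine ⟨⟨F g, g, hg, rfl⟩, Subtype.ext ?_⟩
  have h1 : ∃ g', wlen S g' ≤ n ∧ F g' = F g := ⟨g, hg, rfl⟩
  exact h _ _ h1.choose_spec.2

theorem cnt_pos (hf : S.Finite) (hS : Subgroup.closure S = ⊤) (F : Γ → X) (n : ℕ) :
    1 ≤ cnt S F n := by
  have : Finite {c : X // ∃ g, wlen S g ≤ n ∧ F g = c} := cnt_finite hf hS F n
  have : Nonempty {c : X // ∃ g, wlen S g ≤ n ∧ F g = c} :=
    ⟨⟨F 1, 1, by rw [wlen_one]; exact Nat.zero_le _, rfl⟩⟩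
  exact Nat.card_pos

theorem TA_mul {s t : Equiv.Perm (List Bool)} (hs : TA s) (ht : TA t) : TA (s * t) :=
  ⟨fun v => by rw [Equiv.Perm.mul_apply, hs.1, ht.1],
    fun v n => by rw [Equiv.Perm.mul_apply, Equiv.Perm.mul_apply, hs.2, ht.2]⟩

theorem app_inv (t : Equiv.Perm (List Bool)) (v : List Bool) : t (t⁻¹ v) = v := by simp

theorem TA_inv {t : Equiv.Perm (List Bool)} (ht : TA t) : TA t⁻¹ := by
  refine ⟨fun v => ?_, fun v n => ?_⟩
  · rw [← ht.1 (t⁻¹ v), app_inv]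
  · apply t.injective
    rw [app_inv, ← ht.2, app_inv]

theorem TreeConj.symm {g h : Equiv.Perm (List Bool)} (hc : TreeConj g h) : TreeConj h g := by
  obtain ⟨t, ht, rfl⟩ := hc
  exact ⟨t⁻¹, TA_inv ht, by group⟩

theorem TreeConj.trans {g h k : Equiv.Perm (List Bool)} (h1 : TreeConj g h) (h2 : TreeConj h k) :
    TreeConj g k := by
  obtain ⟨t, ht, rfl⟩ := h1
  obtain ⟨s, hs, rfl⟩ := h2
  exact ⟨s * t, TA_mul hs ht, by group⟩

theorem TClass_eq_iff {g h : Equiv.Perm (List Bool)} : TClass g = TClass h ↔ TreeConj g h := by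
  constructor
  · intro h1
    have h2 : h ∈ TClass h := TreeConj.refl h
    rw [← h1] at h2
    exact h2
  · intro h1
    ext k
    exact ⟨fun h2 => h1.symm.trans h2, fun h2 => h1.trans h2⟩

theorem wtc_le_wcc (hf : S.Finite) (hS : Subgroup.closure S = ⊤)
    (φ : Γ →* Equiv.Perm (List Bool)) (hφ : ∀ g, TA (φ g)) (n : ℕ) : wtc S φ n ≤ wcc S n := by
  refine cnt_comp hf hS (fun g => ConjClasses.mk g) (fun g => TClass (φ g)) ?_ n
  intro g g' h
  have h1 : IsConj g g' := ConjClasses.mk_eq_mk_iff_isConj.1 h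
  obtain ⟨c, hc⟩ := isConj_iff.1 h1
  rw [TClass_eq_iff]
  exact ⟨φ c, hφ c, by rw [← hc, map_mul, map_mul, map_inv]⟩

theorem wcc_le_wball (hf : S.Finite) (hS : Subgroup.closure S = ⊤) (n : ℕ) :
    wcc S n ≤ wball S n :=
  cnt_le_wball hf hS (fun g => ConjClasses.mk g) n

theorem wtc_mono (hf : S.Finite) (hS : Subgroup.closure S = ⊤)
    (φ : Γ →* Equiv.Perm (List Bool)) {m n : ℕ} (h : m ≤ n) : wtc S φ m ≤ wtc S φ n :=
  cnt_le hf hS (fun g => TClass (φ g)) fun _ hg => hg.trans h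

theorem wtc_pos (hf : S.Finite) (hS : Subgroup.closure S = ⊤)
    (φ : Γ →* Equiv.Perm (List Bool)) (n : ℕ) : 1 ≤ wtc S φ n :=
  cnt_pos hf hS (fun g => TClass (φ g)) n

/-- Lifts of the words in `a, b, c, d`. -/
theorem exists_lift (hS : Subgroup.closure S = ⊤) (φ : Γ →* Equiv.Perm (List Bool))
    (hφ : SphereBall.G ≤ φ.range) :
    ∃ K : ℕ, 1 ≤ K ∧ ∀ w : List SphereBall.Lt, ∃ g : Γ,
      wlen S g ≤ K * w.length ∧ φ g = SphereBall.ev w := by
  have h0 : ∀ s : SphereBall.Lt, ∃ g, φ g = SphereBall.gen s := by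
    intro s
    have h1 := hφ (SphereBall.ev_mem [s])
    rw [SphereBall.ev_cons, SphereBall.ev_nil, mul_one] at h1
    exact h1
  choose x hx using h0
  refine ⟨1 + wlen S (x .A) + wlen S (x .B) + wlen S (x .C) + wlen S (x .D), by omega, ?_⟩
  intro w
  induction w with
  | nil => exact ⟨1, by rw [wlen_one]; exact Nat.zero_le _, by rw [map_one]; rfl⟩
  | cons s w ih =>
    obtain ⟨g, hg1, hg2⟩ := ih
    refine ⟨x s * g, ?_, by rw [map_mul, hx, hg2, SphereBall.ev_cons]⟩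
    have h1 := wlen_mul_le hS (x s) g
    have h2 : wlen S (x s) ≤
        1 + wlen S (x .A) + wlen S (x .B) + wlen S (x .C) + wlen S (x .D) := by
      cases s <;> omega
    rw [List.length_cons, Nat.mul_succ]
    omega

/-- The doubly exponential lower bound. -/
theorem wtc_lower (hf : S.Finite) (hS : Subgroup.closure S = ⊤)
    (φ : Γ →* Equiv.Perm (List Bool)) (hφ : SphereBall.G ≤ φ.range) :
    ∃ A : ℝ, 0 < A ∧ ∀ k : ℕ, 2 ^ (2 ^ k) ≤ wtc S φ ⌊A * lam ^ k⌋₊ := by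
  obtain ⟨K, hK, hl⟩ := exists_lift hS φ hφ
  obtain ⟨A, hA, h⟩ := exists_family
  have hK0 : (0 : ℝ) < K := by exact_mod_cast hK
  have hlam := lam_pos
  refine ⟨K * (A * lam ^ 2), by positivity, fun k => ?_⟩
  obtain ⟨W, hW1, hW2⟩ := h (k + 2)
  choose g hg1 hg2 using hl
  set N : ℕ := ⌊K * (A * lam ^ 2) * lam ^ k⌋₊ with hN
  have hlen : ∀ x ∈ vals (k + 2), wlen S (g (W x)) ≤ N := by
    intro x hx
    refine (hg1 _).trans (Nat.le_floor ?_)
    push_cast
    calc (K : ℝ) * ((W x).length : ℝ) ≤ K * (A * lam ^ (k + 2)) := by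
          have := hW1 x hx
          gcongr
      _ = K * (A * lam ^ 2) * lam ^ k := by ring
  have : Finite {c : Set (Equiv.Perm (List Bool)) // ∃ g, wlen S g ≤ N ∧ TClass (φ g) = c} :=
    cnt_finite hf hS (fun g => TClass (φ g)) N
  have h1 : Nat.card (vals (k + 2)) ≤ wtc S φ N := by
    refine Nat.card_le_card_of_injective
      (fun x : vals (k + 2) => (⟨TClass (φ (g (W x.1))), g (W x.1), hlen x.1 x.2, rfl⟩ :
        {c : Set (Equiv.Perm (List Bool)) // ∃ g, wlen S g ≤ N ∧ TClass (φ g) = c})) ?_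
    rintro ⟨x, hx⟩ ⟨y, hy⟩ hxy
    have h2 : TClass (φ (g (W x))) = TClass (φ (g (W y))) := congrArg Subtype.val hxy
    rw [TClass_eq_iff, hg2, hg2] at h2
    exact Subtype.ext (hW2 x hx y hy h2)
  rw [Nat.card_eq_fintype_card, Fintype.card_coe] at h1
  refine le_trans (le_trans ?_ (card_vals k)) h1
  exact Nat.pow_le_pow_right (by norm_num) (Nat.le_succ _)

end

/-- From the doubly exponential lower bound to the stretched exponential one. -/
theorem final_lower_gen (f : ℕ → ℕ) (hf : ∀ m n, m ≤ n → f m ≤ f n) (h0 : 1 ≤ f 0)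
    (h : ∃ A : ℝ, 0 < A ∧ ∀ k : ℕ, 2 ^ (2 ^ k) ≤ f ⌊A * lam ^ k⌋₊) :
    ∃ C : ℕ, 1 ≤ C ∧ ∀ n : ℕ, Real.exp ((n : ℝ) ^ alpha) ≤ (f (C * n) : ℝ) := by
  obtain ⟨A, hA, h⟩ := h
  have hl2 : 0 < Real.log 2 := Real.log_pos (by norm_num)
  have hl2' : Real.log 2 < 1 := by
    have := Real.log_two_lt_d9
    linarith
  set C1 : ℝ := (2 / Real.log 2) ^ (1 / alpha) with hC1
  have hC1p : 0 < C1 := Real.rpow_pos_of_pos (by positivity) _
  refine ⟨⌈A * C1⌉₊ + 1, Nat.le_add_left _ _, fun n => ?_⟩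
  rcases Nat.eq_zero_or_pos n with hn | hn
  · subst hn
    rw [Nat.cast_zero, Real.zero_rpow H_alpha_pos.ne', Real.exp_zero, mul_zero]
    exact_mod_cast h0
  have hn1 : (1 : ℝ) ≤ n := by exact_mod_cast hn
  have ht : (1 : ℝ) ≤ (n : ℝ) ^ alpha := Real.one_le_rpow hn1 H_alpha_pos.le
  set t : ℝ := (n : ℝ) ^ alpha with htd
  have hx : (1 : ℝ) ≤ t / Real.log 2 := by
    rw [le_div_iff₀ hl2]
    linarith
  obtain ⟨m, hm1, hm2⟩ := exists_nat_pow_near hx (by norm_num : (1 : ℝ) < 2)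
  have h1 : t ≤ 2 ^ (m + 1) * Real.log 2 := by
    rw [div_lt_iff₀ hl2] at hm2
    exact hm2.le
  have h2 : (2 : ℝ) ^ (m + 1) ≤ 2 / Real.log 2 * t := by
    have : (2 : ℝ) ^ (m + 1) = 2 * 2 ^ m := by ring
    rw [this]
    calc 2 * (2 : ℝ) ^ m ≤ 2 * (t / Real.log 2) := by linarith
      _ = 2 / Real.log 2 * t := by ring
  have h3 : lam ^ (m + 1) ≤ C1 * n := by
    have hp : 0 < lam ^ (m + 1) := pow_pos lam_pos _
    have hq : 0 < C1 * n := by positivity
    rw [← Real.rpow_le_rpow_iff hp.le hq.le H_alpha_pos, H_pow_alpha,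
      Real.mul_rpow hC1p.le (by positivity), hC1, H_root _ (by positivity)]
    exact h2
  have h4 : Real.exp t ≤ ((2 ^ (2 ^ (m + 1)) : ℕ) : ℝ) := by
    have e : ((2 ^ (2 ^ (m + 1)) : ℕ) : ℝ) = Real.exp (2 ^ (m + 1) * Real.log 2) := by
      rw [mul_comm, Real.exp_mul, Real.exp_log (by norm_num)]
      push_cast
      rw [← Real.rpow_natCast]
      push_cast
      rfl
    rw [e]
    exact Real.exp_le_exp.2 h1
  have h5 : f ⌊A * lam ^ (m + 1)⌋₊ ≤ f ((⌈A * C1⌉₊ + 1) * n) := by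
    refine hf _ _ (Nat.floor_le_of_le ?_)
    push_cast
    calc A * lam ^ (m + 1) ≤ A * (C1 * n) := by gcongr
      _ = A * C1 * n := by ring
      _ ≤ (⌈A * C1⌉₊ + 1) * n := by
        gcongr
        have := Nat.le_ceil (A * C1)
        linarith
  exact h4.trans (by exact_mod_cast (h (m + 1)).trans h5)

theorem TA_of_mem {g : Equiv.Perm (List Bool)} (hg : g ∈ SphereBall.G) : TA g := by
  obtain ⟨w, rfl⟩ := SphereBall.exists_word hg
  exact ta_ev w

end Pool.Agent.Y36.SG
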