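import Pool.Agent.Y36.SG.Square
import Pool.Agent.Results.MP_03d093_al.SphereBall

/-!
# The first Grigorchuk group with respect to arbitrary generating sets
-/

set_option autoImplicit false

namespace Pool.Agent.Y36.SG

open Pool.Agent.Results.MP_03d093_al

/-- The generators `a, b, c, d` as a subset of the group `G`. -/
def gens : Set SphereBall.G :=
  {g | (g : Equiv.Perm (List Bool)) ∈
    ({SphereBall.a, SphereBall.b, SphereBall.c, SphereBall.d} : Set (Equiv.Perm (List Bool)))}

theorem gens_finite : gens.Finite :=
  Set.Finite.preimage (Subtype.val_injective.injOn) (Set.toFinite _)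

theorem gen_mem (s : SphereBall.Lt) : SphereBall.evG [s] ∈ gens := by
  have h : SphereBall.ev [s] ∈
      ({SphereBall.a, SphereBall.b, SphereBall.c, SphereBall.d} :
        Set (Equiv.Perm (List Bool))) := by
    cases s <;> simp [SphereBall.gen]
  exact h

theorem gens_closure : Subgroup.closure gens = ⊤ := by
  rw [eq_top_iff]
  intro g _
  obtain ⟨w, hw⟩ := SphereBall.exists_word g.2
  have h : ∀ w : List SphereBall.Lt, SphereBall.evG w ∈ Subgroup.closure gens := by
    intro w
    induction w with
    | nil => exact Subgroup.one_mem _
    | cons s w ih =>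
      have h1 : SphereBall.evG (s :: w) = SphereBall.evG [s] * SphereBall.evG w := by
        rw [← SphereBall.evG_append]; rfl
      rw [h1]
      exact Subgroup.mul_mem _ (Subgroup.subset_closure (gen_mem s)) ih
  have h1 : g = SphereBall.evG w := Subtype.ext hw.symm
  rw [h1]
  exact h w

theorem len_eq (g : SphereBall.G) : SphereBall.len g = wlen gens g := by
  unfold SphereBall.len wlen
  congr 1
  ext n
  constructor
  · rintro ⟨l, hl, h, hp⟩
    obtain ⟨w, rfl⟩ := SphereBall.list_word l h
    refine ⟨w.map fun s => SphereBall.evG [s], by simpa using hl, ?_, ?_⟩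
    · intro x hx
      obtain ⟨s, -, rfl⟩ := List.mem_map.1 hx
      exact Or.inl (gen_mem s)
    · have h1 : ∀ w : List SphereBall.Lt,
          (w.map fun s => SphereBall.evG [s]).prod = SphereBall.evG w := by
        intro w
        induction w with
        | nil => rfl
        | cons s w ih =>
          rw [List.map_cons, List.prod_cons, ih, ← SphereBall.evG_append]; rfl
      rw [h1]
      exact Subtype.ext hp
  · rintro ⟨l, hl, h, hp⟩
    refine ⟨l.map Subtype.val, by simpa using hl, ?_, ?_⟩
    · intro s hs
      obtain ⟨x, hx, rfl⟩ := List.mem_map.1 hs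
      have h2 : ∀ y : SphereBall.G, y ∈ gens → (y : Equiv.Perm (List Bool))⁻¹ = y ∧
          ((y : Equiv.Perm (List Bool)) = SphereBall.a ∨ (y : Equiv.Perm (List Bool)) = SphereBall.b ∨
          (y : Equiv.Perm (List Bool)) = SphereBall.c ∨
          (y : Equiv.Perm (List Bool)) = SphereBall.d) := by
        intro y hy
        have hy' : (y : Equiv.Perm (List Bool)) = SphereBall.a ∨
          (y : Equiv.Perm (List Bool)) = SphereBall.b ∨
          (y : Equiv.Perm (List Bool)) = SphereBall.c ∨
          (y : Equiv.Perm (List Bool)) = SphereBall.d := by simpa [gens] using hy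
        refine ⟨?_, hy'⟩
        rcases hy' with h | h | h | h <;> rw [h]
        · exact SphereBall.gen_inv .A
        · exact SphereBall.gen_inv .B
        · exact SphereBall.gen_inv .C
        · exact SphereBall.gen_inv .D
      rcases h x hx with h3 | h3
      · exact (h2 x h3).2
      · obtain ⟨h4, h5⟩ := h2 _ h3
        have h6 : ((x⁻¹ : SphereBall.G) : Equiv.Perm (List Bool)) = x := by
          rw [← h4]
          simp
        rw [h6] at h5
        exact h5
    · rw [← hp]
      exact (map_list_prod (SphereBall.G.subtype) l).symm

theorem ball_eq (n : ℕ) : SphereBall.ball n = wball gens n := by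
  unfold SphereBall.ball wball
  simp only [len_eq]

theorem sph_eq (n : ℕ) : SphereBall.sph n = wsph gens n := by
  unfold SphereBall.sph wsph
  simp only [len_eq]

theorem grig_dom : Dom (fun n => n * wball gens n) (wball gens) := by
  rw [← dom_iff gens_finite gens_closure]
  obtain ⟨C, hC, h⟩ := SphereBall.ball_le_sph
  refine ⟨C, hC, fun n hn => ?_⟩
  rw [← ball_eq, ← sph_eq]
  exact h n hn _ le_rfl

end Pool.Agent.Y36.SG
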