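import Pool.Agent.Y36.SG.Grig
import Pool.Agent.H776R2.Grig.Realize
import Pool.Agent.H776R2.Grig.Lower
import Pool.Agent.H776R2.Grig.Upper
import Pool.Agent.H776R2.Grig.Comm
import Pool.Agent.H776R2.Grig.Fin1

/-!
# Word lengths in quotients, and the level quotients of the first Grigorchuk group
-/

set_option autoImplicit false

namespace Pool.Agent.Y36.SG

open Pool.Agent.Results.MP_03d093_al Pool.Agent.H776R2.Grig

section
variable {Γ : Type} [Group Γ] {S : Set Γ} (N : Subgroup Γ) [N.Normal]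

/-- The image of `S` in the quotient `Γ / N`. -/
def qS (S : Set Γ) : Set (Γ ⧸ N) := QuotientGroup.mk' N '' S

theorem closure_qS (hS : Subgroup.closure S = ⊤) : Subgroup.closure (qS N S) = ⊤ := by
  rw [qS, ← MonoidHom.map_closure, hS, ← MonoidHom.range_eq_map, MonoidHom.range_eq_top]
  exact QuotientGroup.mk'_surjective N

theorem wlen_quot_le (hS : Subgroup.closure S = ⊤) (x : Γ) :
    wlen (qS N S) (QuotientGroup.mk' N x) ≤ wlen S x := by
  obtain ⟨l, h1, h2, h3⟩ := exists_geod hS x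
  have h4 := wlen_le (S := qS N S) (l.map (QuotientGroup.mk' N)) (by
    intro y hy
    obtain ⟨z, hz, rfl⟩ := List.mem_map.1 hy
    rcases h2 z hz with h | h
    · exact Or.inl ⟨z, h, rfl⟩
    · exact Or.inr ⟨z⁻¹, h, map_inv _ _⟩)
  rwa [← map_list_prod, h3, List.length_map, h1] at h4

theorem lift_list (l : List (Γ ⧸ N)) (h : ∀ y ∈ l, y ∈ qS N S ∨ y⁻¹ ∈ qS N S) :
    ∃ m : List Γ, m.length = l.length ∧ (∀ y ∈ m, y ∈ S ∨ y⁻¹ ∈ S) ∧
      QuotientGroup.mk' N m.prod = l.prod := by
  induction l with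
  | nil => exact ⟨[], rfl, by simp, map_one _⟩
  | cons y l ih =>
    obtain ⟨m, h1, h2, h3⟩ := ih fun z hz => h z (by simp [hz])
    have h4 : ∃ x : Γ, (x ∈ S ∨ x⁻¹ ∈ S) ∧ QuotientGroup.mk' N x = y := by
      rcases h y (by simp) with ⟨x, hx, hxy⟩ | ⟨x, hx, hxy⟩
      · exact ⟨x, Or.inl hx, hxy⟩
      · exact ⟨x⁻¹, Or.inr (by rwa [inv_inv]), by rw [map_inv, hxy, inv_inv]⟩
    obtain ⟨x, hx, hxy⟩ := h4
    refine ⟨x :: m, by simp [h1], ?_, by rw [List.prod_cons, map_mul, h3, hxy, List.prod_cons]⟩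
    intro z hz
    rcases List.mem_cons.1 hz with rfl | hz
    · exact hx
    · exact h2 z hz

theorem exists_lift_quot (hS : Subgroup.closure S = ⊤) (g : Γ ⧸ N) :
    ∃ x : Γ, QuotientGroup.mk' N x = g ∧ wlen S x ≤ wlen (qS N S) g := by
  obtain ⟨l, h1, h2, h3⟩ := exists_geod (closure_qS N hS) g
  obtain ⟨m, h4, h5, h6⟩ := lift_list N l h2
  refine ⟨m.prod, by rw [h6, h3], ?_⟩
  rw [← h1, ← h4]
  exact wlen_le m h5

theorem card_quot_ball_le (hf : S.Finite) (hS : Subgroup.closure S = ⊤) (r : ℕ) :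
    Nat.card {g : Γ ⧸ N // wlen (qS N S) g ≤ r} ≤ wball S r := by
  choose f h1 h2 using exists_lift_quot N hS
  have : Finite {x : Γ // wlen S x ≤ r} := ball_finite hf hS r
  refine Nat.card_le_card_of_injective
    (fun g : {g : Γ ⧸ N // wlen (qS N S) g ≤ r} =>
      (⟨f g.1, (h2 g.1).trans g.2⟩ : {x : Γ // wlen S x ≤ r})) ?_
  intro g g' h
  have h3 : f g.1 = f g'.1 := congrArg Subtype.val h
  apply Subtype.ext
  rw [← h1 g.1, ← h1 g'.1, h3]

end

theorem G_TA (g : SphereBall.G) : TA (g : Equiv.Perm (List Bool)) := by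
  obtain ⟨w, hw⟩ := SphereBall.exists_word g.2
  rw [← hw]
  exact ta_ev w

/-- The stabilizer in the first Grigorchuk group of the level `n`: the elements which fix all words
of length `n`. -/
def st (n : ℕ) : Subgroup SphereBall.G where
  carrier := {g | ∀ u : List Bool, u.length = n → (g : Equiv.Perm (List Bool)) u = u}
  mul_mem' := by
    intro g h hg hh u hu
    show (g : Equiv.Perm (List Bool)) ((h : Equiv.Perm (List Bool)) u) = u
    rw [hh u hu, hg u hu]
  one_mem' := fun _ _ => rfl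
  inv_mem' := by
    intro g hg u hu
    show (g : Equiv.Perm (List Bool))⁻¹ u = u
    rw [Equiv.Perm.inv_eq_iff_eq]
    exact (hg u hu).symm

instance st_normal (n : ℕ) : (st n).Normal := ⟨by
  intro g hg h u hu
  show (h : Equiv.Perm (List Bool)) ((g : Equiv.Perm (List Bool))
    (((h⁻¹ : SphereBall.G) : Equiv.Perm (List Bool)) u)) = u
  have h1 : (((h⁻¹ : SphereBall.G) : Equiv.Perm (List Bool)) u).length = n := by
    rw [(G_TA h⁻¹).1, hu]
  rw [hg _ h1]
  show (h : Equiv.Perm (List Bool)) ((h : Equiv.Perm (List Bool))⁻¹ u) = u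
  simp⟩

/-- The group `G_n`, the quotient of the first Grigorchuk group by the stabilizer of level `n`. -/
abbrev Gq (n : ℕ) : Type := SphereBall.G ⧸ st n

/-- The length in `G_n` with respect to the images of the elements of `S`. -/
noncomputable def qlen (S : Set SphereBall.G) (n : ℕ) (g : Gq n) : ℕ := wlen (qS (st n) S) g

/-- The diameter of the Cayley graph of `G_n` with respect to the images of the elements of `S`. -/
noncomputable def qdiam (S : Set SphereBall.G) (n : ℕ) : ℕ := sSup (Set.range (qlen S n))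

theorem mk_eq_iff {n : ℕ} {g h : SphereBall.G} :
    QuotientGroup.mk' (st n) g = QuotientGroup.mk' (st n) h ↔
      ∀ u : List Bool, u.length = n →
        (g : Equiv.Perm (List Bool)) u = (h : Equiv.Perm (List Bool)) u := by
  rw [QuotientGroup.mk'_apply, QuotientGroup.mk'_apply, QuotientGroup.eq]
  constructor
  · intro h1 u hu
    have h2 : ((g⁻¹ * h : SphereBall.G) : Equiv.Perm (List Bool)) u = u := h1 u hu
    have h3 : (g : Equiv.Perm (List Bool))⁻¹ ((h : Equiv.Perm (List Bool)) u) = u := h2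
    rw [Equiv.Perm.inv_eq_iff_eq] at h3
    exact h3.symm
  · intro h1 u hu
    show (g : Equiv.Perm (List Bool))⁻¹ ((h : Equiv.Perm (List Bool)) u) = u
    rw [Equiv.Perm.inv_eq_iff_eq]
    exact (h1 u hu).symm

instance Gq_finite (n : ℕ) : Finite (Gq n) := by
  have h0 : ∀ x : Gq n, ∃ g : SphereBall.G, QuotientGroup.mk' (st n) g = x :=
    QuotientGroup.mk'_surjective _
  choose f hf using h0
  have : Finite {u : List Bool // u.length = n} := (List.finite_length_eq Bool n)
  refine Finite.of_injective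
    (fun (x : Gq n) (u : {u : List Bool // u.length = n}) =>
      (⟨(f x : Equiv.Perm (List Bool)) u.1, by rw [(G_TA (f x)).1, u.2]⟩ :
        {u : List Bool // u.length = n})) ?_
  intro x y hxy
  rw [← hf x, ← hf y, mk_eq_iff]
  intro u hu
  exact congrArg Subtype.val (congrFun hxy ⟨u, hu⟩)

theorem card_Gq (k : ℕ) : 2 ^ (2 ^ k) ≤ Nat.card (Gq (k + 3)) := by
  obtain ⟨A, hA, h⟩ := realize
  choose w hw1 hw2 using fun f : List.Vector Bool k → Bool => h k (L_ext f)
  have hinj : Function.Injective fun f : List.Vector Bool k → Bool =>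
      QuotientGroup.mk' (st (k + 3)) (SphereBall.evG (w f)) := by
    intro f f' hff
    have h1 := mk_eq_iff.1 hff
    have h2 : Lab (k + 2) (fun u => L_ext f' (u.take k)) (SphereBall.ev (w f)) := by
      intro u hu x
      rw [← hw2 f' u hu x]
      exact h1 (u ++ [x]) (by rw [List.length_append, hu]; rfl)
    funext v
    have h4 := L_unique (hw2 f) h2 v.1 v.2
    rwa [L_ext_apply, L_ext_apply] at h4
  have h5 := Nat.card_le_card_of_injective _ hinj
  have h6 : Nat.card (List.Vector Bool k → Bool) = 2 ^ (2 ^ k) := by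
    rw [Nat.card_eq_fintype_card, Fintype.card_fun, card_vector, Fintype.card_bool]
  rwa [h6] at h5

theorem log_card_Gq (n : ℕ) : Real.exp (Real.log 2 / 8 * 2 ^ n) ≤ 2 * (Nat.card (Gq n) : ℝ) := by
  have hl : Real.log 2 ≤ 1 := by
    have := Real.log_two_lt_d9
    linarith
  have hl0 : 0 < Real.log 2 := Real.log_pos (by norm_num)
  rcases Nat.lt_or_ge n 3 with hn | hn
  · have h1 : (1 : ℝ) ≤ Nat.card (Gq n) := by exact_mod_cast Nat.card_pos
    have h2 : Real.log 2 / 8 * 2 ^ n ≤ Real.log 2 := by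
      have h3 : (2 : ℝ) ^ n ≤ 2 ^ 3 := pow_le_pow_right₀ (by norm_num) hn.le
      nlinarith
    calc Real.exp (Real.log 2 / 8 * 2 ^ n) ≤ Real.exp (Real.log 2) := Real.exp_le_exp.2 h2
      _ = 2 := Real.exp_log (by norm_num)
      _ ≤ _ := by linarith
  · obtain ⟨k, rfl⟩ := Nat.exists_eq_add_of_le' hn
    have h1 : ((2 ^ (2 ^ k) : ℕ) : ℝ) ≤ Nat.card (Gq (k + 3)) := by exact_mod_cast card_Gq k
    have e : ((2 ^ (2 ^ k) : ℕ) : ℝ) = Real.exp (Real.log 2 * 2 ^ k) := by
      rw [Real.exp_mul, Real.exp_log (by norm_num)]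
      push_cast
      rw [← Real.rpow_natCast]
      push_cast
      rfl
    rw [e] at h1
    have h2 : Real.log 2 / 8 * 2 ^ (k + 3) = Real.log 2 * 2 ^ k := by ring
    rw [h2]
    have h3 := Real.exp_pos (Real.log 2 * 2 ^ k)
    linarith

/-- **Few elements of `G_n` are short.** -/
theorem few_short (S : Set SphereBall.G) (hf : S.Finite) (hS : Subgroup.closure S = ⊤) :
    ∃ c C : ℝ, 0 < c ∧ 0 < C ∧ ∀ n : ℕ,
      (Nat.card {g : Gq n // (qlen S n g : ℝ) ≤ c * lam ^ n} : ℝ) ≤
        C * Real.exp (-(c * 2 ^ n)) * Nat.card (Gq n) := by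
  obtain ⟨C0, hC0, hup⟩ := ball_upper
  obtain ⟨K, hK, hKb⟩ := exists_wball hf hS gens_finite gens_closure
  have hK0 : (0 : ℝ) < K := by exact_mod_cast hK
  have hl0 : 0 < Real.log 2 := Real.log_pos (by norm_num)
  have hlam := lam_pos
  have hlam1 : 1 < lam := by linarith [lam_gt]
  obtain ⟨k, hk⟩ := pow_unbounded_of_one_lt (16 * C0 / Real.log 2) (by norm_num : (1 : ℝ) < 2)
  have hk' : C0 ≤ Real.log 2 / 16 * 2 ^ k := by
    rw [div_lt_iff₀ hl0] at hk
    linarith
  set c : ℝ := min (1 / (K * lam ^ k)) (Real.log 2 / 16) with hc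
  have hcpos : 0 < c := lt_min (by positivity) (by positivity)
  refine ⟨c, 2 * Real.exp (c * 2 ^ k), hcpos, by positivity, fun n => ?_⟩
  have hcard1 : (1 : ℝ) ≤ Nat.card (Gq n) := by exact_mod_cast Nat.card_pos
  rcases Nat.lt_or_ge n k with hn | hn
  · have h1 : Nat.card {g : Gq n // (qlen S n g : ℝ) ≤ c * lam ^ n} ≤ Nat.card (Gq n) :=
      Nat.card_le_card_of_injective _ Subtype.val_injective
    have h2 : (1 : ℝ) ≤ 2 * Real.exp (c * 2 ^ k) * Real.exp (-(c * 2 ^ n)) := by
      rw [mul_assoc, ← Real.exp_add]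
      have h3 : (0 : ℝ) ≤ c * 2 ^ k + -(c * 2 ^ n) := by
        have h4 : (2 : ℝ) ^ n ≤ 2 ^ k := pow_le_pow_right₀ (by norm_num) hn.le
        nlinarith
      have h5 := Real.one_le_exp h3
      linarith
    calc (Nat.card {g : Gq n // (qlen S n g : ℝ) ≤ c * lam ^ n} : ℝ) ≤ Nat.card (Gq n) := by
          exact_mod_cast h1
      _ = 1 * Nat.card (Gq n) := (one_mul _).symm
      _ ≤ _ := mul_le_mul_of_nonneg_right h2 (by linarith)
  · obtain ⟨m, rfl⟩ := Nat.exists_eq_add_of_le hn
    -- the radius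
    set r : ℕ := ⌊c * lam ^ (k + m)⌋₊ with hr
    have h1 : Nat.card {g : Gq (k + m) // (qlen S (k + m) g : ℝ) ≤ c * lam ^ (k + m)} ≤
        wball S r := by
      refine le_trans (le_of_eq ?_) (card_quot_ball_le (st (k + m)) hf hS r)
      refine Nat.card_congr (Equiv.subtypeEquivRight fun g => ?_)
      exact (Nat.le_floor_iff (by positivity)).symm
    have h2 : wball S r ≤ SphereBall.ball ⌊lam ^ m⌋₊ := by
      refine (hKb r).trans ?_
      rw [← ball_eq]
      refine SphereBall.ball_mono (Nat.le_floor ?_)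
      push_cast
      have h3 : (r : ℝ) ≤ c * lam ^ (k + m) := Nat.floor_le (by positivity)
      have h4 : c ≤ 1 / (K * lam ^ k) := min_le_left _ _
      calc (K : ℝ) * r ≤ K * (1 / (K * lam ^ k) * lam ^ (k + m)) := by
            refine mul_le_mul_of_nonneg_left (h3.trans ?_) hK0.le
            exact mul_le_mul_of_nonneg_right h4 (by positivity)
        _ = lam ^ m := by
            rw [pow_add]
            field_simp
    have h3 : (Nat.card {g : Gq (k + m) // (qlen S (k + m) g : ℝ) ≤ c * lam ^ (k + m)} : ℝ) ≤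
        Real.exp (C0 * 2 ^ m) := by
      refine le_trans ?_ (hup m)
      exact_mod_cast h1.trans h2
    have h4 := log_card_Gq (k + m)
    have h5 : C0 * 2 ^ m ≤ Real.log 2 / 16 * 2 ^ (k + m) := by
      rw [pow_add, ← mul_assoc]
      exact mul_le_mul_of_nonneg_right hk' (by positivity)
    have h6 : c ≤ Real.log 2 / 16 := min_le_right _ _
    have h7 : Real.exp (C0 * 2 ^ m) ≤
        Real.exp (-(c * 2 ^ (k + m))) * Real.exp (Real.log 2 / 8 * 2 ^ (k + m)) := by
      rw [← Real.exp_add]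
      apply Real.exp_le_exp.2
      have h8 : c * 2 ^ (k + m) ≤ Real.log 2 / 16 * 2 ^ (k + m) :=
        mul_le_mul_of_nonneg_right h6 (by positivity)
      have h9 : Real.log 2 / 8 * (2 : ℝ) ^ (k + m) =
        Real.log 2 / 16 * 2 ^ (k + m) + Real.log 2 / 16 * 2 ^ (k + m) := by ring
      linarith
    calc (Nat.card {g : Gq (k + m) // (qlen S (k + m) g : ℝ) ≤ c * lam ^ (k + m)} : ℝ)
        ≤ Real.exp (-(c * 2 ^ (k + m))) * Real.exp (Real.log 2 / 8 * 2 ^ (k + m)) := h3.trans h7
      _ ≤ Real.exp (-(c * 2 ^ (k + m))) * (2 * (Nat.card (Gq (k + m)) : ℝ)) :=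
        mul_le_mul_of_nonneg_left h4 (Real.exp_pos _).le
      _ = 2 * 1 * Real.exp (-(c * 2 ^ (k + m))) * (Nat.card (Gq (k + m)) : ℝ) := by ring
      _ ≤ 2 * Real.exp (c * 2 ^ k) * Real.exp (-(c * 2 ^ (k + m))) *
          (Nat.card (Gq (k + m)) : ℝ) := by
        have h8 : (1 : ℝ) ≤ Real.exp (c * 2 ^ k) := Real.one_le_exp (by positivity)
        gcongr

end Pool.Agent.Y36.SG
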